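import Pool.Agent.Run7.h6.FE.Orbit

/-!
# Case analysis near zero
-/

namespace Run7.h6.FE

/-- Continuous solutions of the functional equation. -/
structure Sol (f : ℝ → ℝ) : Prop where
  cont : Continuous f
  eq : ∀ x, f (x + f x) = f x + f (f x)

variable {f : ℝ → ℝ}

lemma Sol.zero (h : Sol f) : f 0 = 0 := by
  have := h.eq 0
  rw [zero_add] at this
  linarith

lemma Sol.reflect (h : Sol f) : Sol (fun x => - f (-x)) where
  cont := (h.cont.comp continuous_neg).neg
  eq x := by
    have := h.eq (-x)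
    simp only [neg_neg, neg_add]
    rw [this]
    ring

/-- `T x = x + f x`. -/
def T (f : ℝ → ℝ) (x : ℝ) : ℝ := x + f x

lemma Sol.contT (h : Sol f) : Continuous (T f) := continuous_id.add h.cont

lemma Sol.T0 (h : Sol f) : T f 0 = 0 := by simp [T, h.zero]

lemma Sol.comm (h : Sol f) (x : ℝ) : f (T f x) = T f (f x) := by
  unfold T; rw [h.eq]

lemma T_reflect (x : ℝ) : T (fun x => - f (-x)) x = - T f (-x) := by
  unfold T; ring

/-! ### Extension lemmas -/

lemma Sol.ext_pos (h : Sol f) {c ρ : ℝ} (hc : 0 < c) (hρ : 0 < ρ)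
    (hf : ∀ x, 0 ≤ x → x ≤ ρ → f x = c * x) : ∀ x, 0 ≤ x → f x = c * x := by
  set κ := min (1 + c) ((1 + c) / c) with hκ
  have h1c : 0 < 1 + c := by linarith
  have hκ1 : 1 < κ := by
    rw [hκ, lt_min_iff]
    refine ⟨by linarith, ?_⟩
    rw [one_lt_div hc]; linarith
  have key : ∀ n : ℕ, ∀ x, 0 ≤ x → x ≤ κ ^ n * ρ → f x = c * x := by
    intro n
    induction n with
    | zero => simpa using hf
    | succ n ih =>
      intro y hy hyn
      set R := κ ^ n * ρ with hR
      have hR0 : 0 < R := by positivity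
      have hyR : y ≤ κ * R := by rw [hR, ← mul_assoc, ← pow_succ']; exact hyn
      have hy1 : y ≤ (1 + c) * R :=
        hyR.trans (mul_le_mul_of_nonneg_right (min_le_left _ _) hR0.le)
      have hy2 : y ≤ (1 + c) / c * R :=
        hyR.trans (mul_le_mul_of_nonneg_right (min_le_right _ _) hR0.le)
      set x := y / (1 + c) with hx
      have hx0 : 0 ≤ x := by positivity
      have hyx : y = (1 + c) * x := by rw [hx]; field_simp
      have hxR : x ≤ R := by rw [hx, div_le_iff₀ h1c]; linarith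
      have hcx : c * x ≤ R := by
        rw [div_mul_eq_mul_div, le_div_iff₀ hc, hyx] at hy2
        have : (1 + c) * (c * x) ≤ (1 + c) * R := by linarith
        exact le_of_mul_le_mul_left this h1c
      have e1 : f x = c * x := ih x hx0 hxR
      have e2 : f (c * x) = c * (c * x) := ih _ (by positivity) hcx
      have e3 := h.eq x
      rw [e1, e2] at e3
      rw [show x + c * x = y by rw [hyx]; ring] at e3
      rw [e3, hyx]; ring
  intro x hx
  obtain ⟨n, hn⟩ := pow_unbounded_of_one_lt (x / ρ) hκ1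
  rw [div_lt_iff₀ hρ] at hn
  exact key n x hx hn.le

lemma Sol.ext_neg1 (h : Sol f) {c ρ : ℝ} (hc : c < -1) (hρ : 0 < ρ)
    (hf : ∀ x, |x| ≤ ρ → f x = c * x) : ∀ x, f x = c * x := by
  set d := -c with hd
  have hd1 : 1 < d := by linarith
  have hd0 : 0 < d := by linarith
  have hd2 : 0 < d - 1 := by linarith
  have hcd : |c| = d := by rw [hd, abs_of_neg (by linarith)]
  have hcd1 : |1 + c| = d - 1 := by rw [abs_of_neg (by linarith)]; linarith
  set κ := min d (d / (d - 1)) with hκ
  have hκ1 : 1 < κ := by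
    rw [hκ, lt_min_iff]
    refine ⟨hd1, ?_⟩
    rw [one_lt_div hd2]; linarith
  have key : ∀ n : ℕ, ∀ x, |x| ≤ κ ^ n * ρ → f x = c * x := by
    intro n
    induction n with
    | zero => simpa using hf
    | succ n ih =>
      intro y hyn
      set R := κ ^ n * ρ with hR
      have hR0 : 0 < R := by positivity
      have hyR : |y| ≤ κ * R := by rw [hR, ← mul_assoc, ← pow_succ']; exact hyn
      have hy1 : |y| ≤ d * R :=
        hyR.trans (mul_le_mul_of_nonneg_right (min_le_left _ _) hR0.le)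
      have hy2 : |y| ≤ d / (d - 1) * R :=
        hyR.trans (mul_le_mul_of_nonneg_right (min_le_right _ _) hR0.le)
      set x := y / c with hx
      have hyx : y = c * x := by rw [hx]; field_simp [show c ≠ 0 by linarith]
      have hyx' : |y| = d * |x| := by rw [hyx, abs_mul, hcd]
      have hxR : |x| ≤ R := by
        rw [hyx'] at hy1
        exact le_of_mul_le_mul_left hy1 hd0
      have hTx : |(1 + c) * x| ≤ R := by
        rw [abs_mul, hcd1]
        rw [div_mul_eq_mul_div, le_div_iff₀ hd2, hyx'] at hy2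
        have : d * ((d - 1) * |x|) ≤ d * R := by linarith
        exact le_of_mul_le_mul_left this hd0
      have e1 : f x = c * x := ih x hxR
      have e2 : f ((1 + c) * x) = c * ((1 + c) * x) := ih _ hTx
      have e3 := h.eq x
      rw [e1, show x + c * x = (1 + c) * x by ring, e2] at e3
      rw [hyx]
      linarith
  intro x
  obtain ⟨n, hn⟩ := pow_unbounded_of_one_lt (|x| / ρ) hκ1
  rw [div_lt_iff₀ hρ] at hn
  exact key n x hn.le

lemma Sol.ext_neg2 (h : Sol f) {c ρ : ℝ} (hc1 : -1 < c) (hc0 : c < 0) (hρ : 0 < ρ)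
    (hf : ∀ x, |x| < ρ → f x = c * x) : ∀ x, f x = c * x := by
  by_contra hcon
  push Not at hcon
  obtain ⟨x0, hx0⟩ := hcon
  set B : Set ℝ := {t | ∃ x, |x| = t ∧ f x ≠ c * x} with hB
  have hBne : B.Nonempty := ⟨|x0|, x0, rfl, hx0⟩
  have hBbdd : BddBelow B := ⟨0, by rintro _ ⟨x, rfl, _⟩; exact abs_nonneg x⟩
  set R := sInf B with hR
  have hρR : ρ ≤ R := by
    apply le_csInf hBne
    rintro _ ⟨x, rfl, hx⟩
    by_contra hlt
    rw [not_le] at hlt
    exact hx (hf x hlt)
  have hR0 : 0 < R := by linarith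
  have hin : ∀ x, |x| < R → f x = c * x := by
    intro x hx
    by_contra hne
    have : R ≤ |x| := csInf_le hBbdd ⟨x, rfl, hne⟩
    linarith
  have hcl : IsClosed {x | f x = c * x} :=
    isClosed_eq h.cont (continuous_const.mul continuous_id)
  have hcl2 : Set.Icc (-R) R ⊆ {x | f x = c * x} := by
    rw [← closure_Ioo (by linarith : (-R) ≠ R)]
    apply hcl.closure_subset_iff.mpr
    intro x hx
    exact hin x (abs_lt.mpr ⟨hx.1, hx.2⟩)
  have hV : IsOpen {x | |T f x| < R ∧ |f x| < R} :=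
    (isOpen_lt h.contT.abs continuous_const).inter (isOpen_lt h.cont.abs continuous_const)
  have hVP : ∀ x, |T f x| < R → |f x| < R → f x = c * x := by
    intro x h1 h2
    have e1 := hin _ h1
    have e2 := hin _ h2
    have e3 := h.comm x
    rw [e1] at e3
    unfold T at e3
    rw [e2] at e3
    linarith
  have hmem : ∀ x, |x| = R → |T f x| < R ∧ |f x| < R := by
    intro x hx
    have hfx : f x = c * x := hcl2 (abs_le.mp hx.le)
    refine ⟨?_, ?_⟩
    · unfold T
      rw [hfx, show x + c * x = (1 + c) * x by ring, abs_mul, hx, abs_of_pos (by linarith)]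
      nlinarith
    · rw [hfx, abs_mul, hx, abs_of_neg hc0]
      nlinarith
  obtain ⟨η1, hη1, hb1⟩ := Metric.isOpen_iff.mp hV R (hmem R (abs_of_pos hR0))
  obtain ⟨η2, hη2, hb2⟩ := Metric.isOpen_iff.mp hV (-R) (hmem (-R) (by rw [abs_neg, abs_of_pos hR0]))
  have hlt : R < R + min η1 η2 := by
    have := lt_min hη1 hη2
    linarith
  obtain ⟨t, ⟨x, hxt, hx⟩, htR⟩ := exists_lt_of_csInf_lt hBne hlt
  apply hx
  by_cases hxR : |x| < R
  · exact hin x hxR
  rw [not_lt] at hxR
  rw [← hxt] at htR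
  rcases le_or_gt 0 x with hx0 | hx0
  · rw [abs_of_nonneg hx0] at hxR htR
    have := hb1 (show x ∈ Metric.ball R η1 by
      rw [Metric.mem_ball, Real.dist_eq, abs_of_nonneg (by linarith)]
      linarith [min_le_left η1 η2])
    exact hVP x this.1 this.2
  · rw [abs_of_neg hx0] at hxR htR
    have := hb2 (show x ∈ Metric.ball (-R) η2 by
      rw [Metric.mem_ball, Real.dist_eq, abs_of_nonpos (by linarith)]
      linarith [min_le_right η1 η2])
    exact hVP x this.1 this.2

/-! ### `f > 0` on a right neighbourhood of `0` -/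

lemma Sol.setupI (h : Sol f) {ε : ℝ} (hpos : ∀ x, 0 < x → x < ε → 0 < f x) :
    Setup (T f) f (Set.Ioo 0 ε) where
  comm x := by rw [h.comm]
  ne0 x hx := ne_of_gt hx.1
  add x hx := by
    have := hpos x hx.1 hx.2
    unfold T
    rw [abs_of_pos this, abs_of_pos hx.1, abs_of_pos (by linarith [hx.1])]
  mem x hx hT := by
    refine ⟨hpos x hx.1 hx.2, ?_⟩
    have := hT.2
    unfold T at this
    linarith [hx.1]
  surj x hx := by
    have h1 := hpos x hx.1 hx.2
    obtain ⟨y, hy0, hyx, hy⟩ := ivt0 (T f) h.contT h.T0 hx.1.le hx.1 (by unfold T; linarith)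
    exact ⟨y, ⟨hy0, lt_of_le_of_lt hyx hx.2⟩, hy⟩

theorem Sol.caseI (h : Sol f) {ε : ℝ} (hε : 0 < ε) (hpos : ∀ x, 0 < x → x < ε → 0 < f x) :
    ∃ c, 0 < c ∧ ∀ x, 0 ≤ x → f x = c * x := by
  have hS := h.setupI hpos
  -- a smaller interval mapped into `(0, ε)` by `T`
  obtain ⟨ε', hε', hTε⟩ : ∃ ε' > 0, ∀ x, |x| < ε' → |T f x| < ε := by
    have := Metric.continuous_iff.mp h.contT 0 ε hε
    obtain ⟨δ, hδ, hd⟩ := this
    refine ⟨δ, hδ, fun x hx => ?_⟩
    have := hd x (by simpa [Real.dist_eq] using hx)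
    simpa [Real.dist_eq, h.T0] using this
  set r := min ε ε' with hr
  have hr0 : 0 < r := lt_min hε hε'
  have hTpos : ∀ x, 0 < x → x < r → x < T f x ∧ T f x < ε := by
    intro x hx hxr
    have h1 := hpos x hx (hxr.trans_le (min_le_left _ _))
    have h2 := hTε x (by rw [abs_of_pos hx]; exact hxr.trans_le (min_le_right _ _))
    refine ⟨by unfold T; linarith, (le_abs_self _).trans_lt h2⟩
  have key : ∀ y, 0 < y → y < r → ∀ w, 0 < w → w < r → f y * w ≤ f w * y := by
    intro y hy hyr w hw hwr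
    by_contra hcon
    rw [not_le] at hcon
    set β := f y / y with hβ
    have hβy : f y = β * y := by rw [hβ]; field_simp
    have hw1 : f w < β * w := by
      have : f w * y < (β * w) * y := by
        calc f w * y < f y * w := hcon
          _ = _ := by rw [hβy]; ring
      exact lt_of_mul_lt_mul_right this hy.le
    obtain ⟨δ, hδ, hd⟩ := expand (T f) h.contT h.T0 w hw
      (fun z hz hzw => (hTpos z hz (hzw.trans_lt hwr)).1)
      (fun z hz hzw hTz => by
        -- orbit through `T (T z), T z, z`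
        have hz1 := hTpos z hz (hzw.trans_lt hwr)
        have hT1 : T f z ∈ Set.Ioo 0 ε := ⟨hz.trans hz1.1, hz1.2⟩
        have hz2 := hTpos (T f z) hT1.1 (hTz.trans_lt hwr)
        obtain ⟨xs, hxs, hx0⟩ := exists_orbit hS z ⟨hz, hz1.1.trans hz1.2⟩
        have c1 := hxs.cons (by rw [hx0]; exact hT1)
        have c2 := c1.cons (by
          show T f (T f (xs 0)) ∈ _
          rw [hx0]; exact ⟨hT1.1.trans hz2.1, hz2.2⟩)
        have := c2.sq_le hS
        have this' : |T f (xs 0)| ^ 2 ≤ |T f (T f (xs 0))| * |xs 0| := this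
        rw [hx0, abs_of_pos hz, abs_of_pos (hT1.1.trans hz2.1), abs_of_pos hT1.1] at this'
        linarith)
      (1 + β) (by unfold T; linarith)
    have hy1 := hTpos y hy hyr
    obtain ⟨xs, hxs, hx0⟩ := exists_orbit hS y ⟨hy, hy1.1.trans hy1.2⟩
    have c1 := hxs.cons (by rw [hx0]; exact ⟨hy.trans hy1.1, hy1.2⟩)
    obtain ⟨i, hi⟩ := c1.small hS δ hδ
    have h1 := c1.ratio_iter hS i
    have hmem := (c1.iter hS i).mem 1
    set z := (up f)^[i] (fun n => Nat.casesOn n (T f (xs 0)) xs) 1 with hz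
    have h1' : |f (xs 0)| * |z| ≤ |xs 0| * |f z| := h1
    have hfy : 0 < f y := hpos y hy (hy1.1.trans hy1.2)
    have hfz : 0 < f z := hpos z hmem.1 hmem.2
    rw [hx0, abs_of_pos hy, abs_of_pos hfy, abs_of_pos hmem.1, abs_of_pos hfz] at h1'
    rw [abs_of_pos hmem.1] at hi
    have h2 := hd z hmem.1 hi
    unfold T at h2
    have h3 : f z < β * z := by linarith
    have h4 : y * f z < y * (β * z) := mul_lt_mul_of_pos_left h3 hy
    rw [hβy] at h1'
    linarith
  -- `f x / x` is constant on `(0, r)`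
  have hr2 : 0 < r / 2 := by linarith
  have hr2r : r / 2 < r := by linarith
  set c := f (r / 2) / (r / 2) with hc
  have hfr : 0 < f (r / 2) := hpos _ hr2 (hr2r.trans_le (min_le_left _ _))
  refine ⟨c, by positivity, h.ext_pos (ρ := r / 2) (by positivity) hr2 ?_⟩
  intro x hx hxr
  rcases lt_or_eq_of_le hx with hx0 | hx0
  · have a := key x hx0 (by linarith) (r / 2) hr2 hr2r
    have b := key (r / 2) hr2 hr2r x hx0 (by linarith)
    rw [hc]
    field_simp
    linarith
  · rw [← hx0, h.zero]; ring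

/-- If `f = α x` on `[0, ∞)` with `α ≥ 0`, then `f ≤ 0` on the negatives. -/
lemma Sol.neg_of_pos (h : Sol f) {α : ℝ} (hα : 0 ≤ α) (hf : ∀ x, 0 ≤ x → f x = α * x) :
    ∀ x, x ≤ 0 → f x ≤ 0 := by
  intro x hx
  by_contra hcon
  rw [not_le] at hcon
  have hx0 : x < 0 := by
    rcases lt_or_eq_of_le hx with h1 | h1
    · exact h1
    · rw [h1, h.zero] at hcon; exact absurd hcon (lt_irrefl _)
  have step : ∀ y, y < 0 → 0 < f y → T f y < 0 ∧ f y ≤ f (T f y) := by
    intro y hy hfy
    have e1 : f (T f y) = (1 + α) * f y := by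
      rw [h.comm]; unfold T; rw [hf _ hfy.le]; ring
    refine ⟨?_, by rw [e1]; nlinarith⟩
    by_contra hT
    rw [not_lt] at hT
    have e2 := hf _ hT
    rw [e1] at e2
    unfold T at e2
    -- (1+α) f y = α (y + f y)
    have : f y = α * y := by linarith
    nlinarith
  have key : ∀ n : ℕ, ∃ y, y < 0 ∧ f x ≤ f y ∧ x + n * f x ≤ y := by
    intro n
    induction n with
    | zero => exact ⟨x, hx0, le_rfl, by simp⟩
    | succ n ih =>
      obtain ⟨y, hy, hfy, hn⟩ := ih
      obtain ⟨a, b⟩ := step y hy (hcon.trans_le hfy)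
      refine ⟨T f y, a, hfy.trans b, ?_⟩
      push_cast
      unfold T
      linarith
  obtain ⟨n, hn⟩ := exists_nat_gt (-x / f x)
  rw [div_lt_iff₀ hcon] at hn
  obtain ⟨y, hy, _, h3⟩ := key n
  linarith

/-- Density argument: values arbitrarily close to `0` arbitrarily close to `x0`. -/
lemma zero_of_dense (g : ℝ → ℝ) (hg : Continuous g) (x0 : ℝ)
    (hd : ∀ δ > 0, ∃ y, |y - x0| < δ ∧ |g y| < δ) : g x0 = 0 := by
  by_contra hne
  have hpos : 0 < |g x0| := abs_pos.mpr hne
  obtain ⟨η, hη, h1⟩ := Metric.continuous_iff.mp hg x0 (|g x0| / 2) (by linarith)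
  obtain ⟨y, hy1, hy2⟩ := hd (min η (|g x0| / 2)) (lt_min hη (by linarith))
  have h2 := h1 y (by rw [Real.dist_eq]; exact hy1.trans_le (min_le_left _ _))
  rw [Real.dist_eq] at h2
  have h3 := hy2.trans_le (min_le_right _ _)
  have h4 : |g x0| ≤ |g y| + |g y - g x0| := by
    have := abs_sub_abs_le_abs_sub (g x0) (g y)
    rw [abs_sub_comm] at this
    linarith
  linarith

/-- An arithmetic progression meets every interval of its step length. -/
lemma exists_prog {x x0 z : ℝ} (hz : 0 < z) (hx : x ≤ x0) :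
    ∃ k : ℕ, |x + k * z - x0| < z := by
  obtain ⟨k, hk1, hk2⟩ : ∃ k : ℕ, (k : ℝ) ≤ (x0 - x) / z ∧ (x0 - x) / z < k + 1 :=
    ⟨⌊(x0 - x) / z⌋₊, Nat.floor_le (div_nonneg (by linarith) hz.le), Nat.lt_floor_add_one _⟩
  refine ⟨k, ?_⟩
  rw [le_div_iff₀ hz] at hk1
  rw [div_lt_iff₀ hz] at hk2
  rw [abs_of_nonpos (by linarith)]
  linarith

/-- If the zeros of `f` accumulate at `0` from the right then `f ≤ 0`. -/
theorem Sol.zeros_acc (h : Sol f) (hz : ∀ δ > 0, ∃ z, 0 < z ∧ z < δ ∧ f z = 0) :
    ∀ p, f p ≤ 0 := by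
  intro p
  by_contra hcon
  rw [not_le] at hcon
  have hprog : ∀ z x, f z = 0 → f x = z → ∀ k : ℕ, f (x + k * z) = z := by
    intro z x hz hx k
    induction k with
    | zero => simpa using hx
    | succ k ih =>
      have := h.eq (x + k * z)
      rw [ih, hz, add_zero] at this
      have e : x + ((k + 1 : ℕ) : ℝ) * z = x + k * z + z := by push_cast; ring
      rw [e]
      exact this
  have hzero : ∀ x0, 0 ≤ x0 → p ≤ x0 → f x0 = 0 := by
    intro x0 h0 hp
    apply zero_of_dense f h.cont x0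
    intro δ hδ
    obtain ⟨z, hz0, hz1, hz2⟩ := hz (min δ (f p)) (lt_min hδ hcon)
    have hzδ := hz1.trans_le (min_le_left _ _)
    have hzp := hz1.trans_le (min_le_right _ _)
    have hmem : z ∈ Set.uIcc (f 0) (f p) := by
      rw [h.zero, Set.uIcc_of_le hcon.le]
      exact ⟨hz0.le, hzp.le⟩
    obtain ⟨x, hx, hfx⟩ := intermediate_value_uIcc h.cont.continuousOn hmem
    have hxx0 : x ≤ x0 := by
      rcases Set.mem_uIcc.mp hx with h1 | h1
      · exact h1.2.trans hp
      · exact h1.2.trans h0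
    obtain ⟨k, hk⟩ := exists_prog hz0 hxx0
    refine ⟨x + k * z, hk.trans hzδ, ?_⟩
    rw [hprog z x hz2 hfx k, abs_of_pos hz0]
    exact hzδ
  rcases le_or_gt 0 p with hp | hp
  · rw [hzero p hp le_rfl] at hcon
    exact lt_irrefl _ hcon
  · have := h.neg_of_pos (α := 0) le_rfl (fun x hx => by
      rw [hzero x hx (hp.le.trans hx), zero_mul]) p hp.le
    linarith

/-- The zero set of `T` is symmetric. -/
lemma Sol.W_symm (h : Sol f) {w : ℝ} (hw : T f w = 0) : T f (-w) = 0 := by
  have h1 : f w = -w := by unfold T at hw; linarith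
  have := h.comm w
  rw [hw, h.zero, h1] at this
  exact this.symm

/-- If the zeros of `T` accumulate at `0` then `T ≤ 0`. -/
lemma Sol.T_nonpos (h : Sol f) (hz : ∀ δ > 0, ∃ w, 0 < w ∧ w < δ ∧ T f w = 0) :
    ∀ p, T f p ≤ 0 := by
  intro p
  by_contra hcon
  rw [not_le] at hcon
  have hstep : ∀ w x, T f w = 0 → T f x = w → T f (w - x) = -w := by
    intro w x hw hx
    have h1 : f w = -w := by unfold T at hw; linarith
    have h2 : f x = w - x := by unfold T at hx; linarith
    have := h.comm x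
    rw [hx, h1, h2] at this
    exact this.symm
  have hprog : ∀ w x, T f w = 0 → T f x = w → ∀ k : ℕ, T f (x - k * (2 * w)) = w := by
    intro w x hw hx k
    induction k with
    | zero => simpa using hx
    | succ k ih =>
      have h1 := hstep w _ hw ih
      have h2 := hstep (-w) _ (h.W_symm hw) h1
      rw [neg_neg] at h2
      have e : x - ((k + 1 : ℕ) : ℝ) * (2 * w) = -w - (w - (x - k * (2 * w))) := by
        push_cast; ring
      rw [e]
      exact h2
  have hzero : ∀ x0, x0 ≤ 0 → x0 ≤ p → T f x0 = 0 := by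
    intro x0 h0 hp
    apply zero_of_dense (T f) h.contT x0
    intro δ hδ
    obtain ⟨w, hw0, hw1, hw2⟩ := hz (min (δ / 2) (T f p)) (lt_min (by linarith) hcon)
    have hwδ := hw1.trans_le (min_le_left _ _)
    have hwp := hw1.trans_le (min_le_right _ _)
    have hmem : w ∈ Set.uIcc (T f 0) (T f p) := by
      rw [h.T0, Set.uIcc_of_le hcon.le]
      exact ⟨hw0.le, hwp.le⟩
    obtain ⟨x, hx, hfx⟩ := intermediate_value_uIcc h.contT.continuousOn hmem
    have hxx0 : x0 ≤ x := by
      rcases Set.mem_uIcc.mp hx with h1 | h1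
      · exact h0.trans h1.1
      · exact hp.trans h1.1
    obtain ⟨k, hk⟩ := exists_prog (x := -x) (x0 := -x0) (show 0 < 2 * w by linarith) (by linarith)
    refine ⟨x - k * (2 * w), ?_, ?_⟩
    · rw [← abs_neg]
      calc |-(x - k * (2 * w) - x0)| = |-x + k * (2 * w) - -x0| := by congr 1; ring
        _ < 2 * w := hk
        _ < δ := by linarith
    · rw [hprog w x hw2 hfx k, abs_of_pos hw0]
      linarith
  rcases le_or_gt p 0 with hp | hp
  · rw [hzero p hp le_rfl] at hcon
    exact lt_irrefl _ hcon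
  · have h1 : T f (-p) = 0 := hzero _ (by linarith) (by linarith)
    have h2 := h.W_symm h1
    rw [neg_neg] at h2
    linarith

end Run7.h6.FE
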