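import Pool.Agent.Run7.h6.FE.LogConv

/-!
# One-dimensional dynamics lemmas
-/

namespace Run7.h6.FE

/-- Along a log-convex sequence the ratio bound from below propagates forward. -/
lemma fwd (u : ℕ → ℝ) (B : ℝ) (n : ℕ) (hpos : ∀ i, i ≤ n → 0 < u i)
    (hlc : ∀ i, i + 1 ≤ n → u (i + 1) ^ 2 ≤ u i * u (i + 2)) (hB0 : 0 ≤ B)
    (hB : B * u 0 ≤ u 1) :
    B ^ n * u 0 ≤ u n ∧ B * u n ≤ u (n + 1) := by
  induction n with
  | zero => simpa using hB
  | succ n ih =>
    obtain ⟨h1, h2⟩ := ih (fun i hi => hpos i (by omega)) (fun i hi => hlc i (by omega))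
    refine ⟨?_, ?_⟩
    · calc B ^ (n + 1) * u 0 = B * (B ^ n * u 0) := by ring
        _ ≤ B * u n := mul_le_mul_of_nonneg_left h1 hB0
        _ ≤ _ := h2
    · have h3 := hlc n le_rfl
      have p1 := hpos n (by omega)
      have p2 := hpos (n + 1) le_rfl
      by_contra hc
      rw [not_le] at hc
      have e : u (n + 1) ^ 2 < u (n + 1) ^ 2 := by
        calc u (n + 1) ^ 2 ≤ u n * u (n + 2) := h3
          _ < u n * (B * u (n + 1)) := mul_lt_mul_of_pos_left hc p1
          _ = (B * u n) * u (n + 1) := by ring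
          _ ≤ u (n + 1) * u (n + 1) := mul_le_mul_of_nonneg_right h2 p2.le
          _ = _ := by ring
      exact lt_irrefl _ e

/-- Along a log-convex sequence the ratio bound from above propagates backward. -/
lemma bwd (u : ℕ → ℝ) (A : ℝ) (n : ℕ) (hpos : ∀ i, i ≤ n → 0 < u i)
    (hlc : ∀ i, i + 1 ≤ n → u (i + 1) ^ 2 ≤ u i * u (i + 2)) (hA0 : 0 ≤ A)
    (hA : u (n + 1) ≤ A * u n) :
    u n ≤ A ^ n * u 0 := by
  induction n with
  | zero => simp
  | succ n ih =>
    have h3 := hlc n le_rfl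
    have p1 := hpos n (by omega)
    have p2 := hpos (n + 1) le_rfl
    have h4 : u (n + 1) ≤ A * u n := by
      have : u (n + 1) * u (n + 1) ≤ u (n + 1) * (A * u n) := by
        calc u (n + 1) * u (n + 1) = u (n + 1) ^ 2 := by ring
          _ ≤ u n * u (n + 2) := h3
          _ ≤ u n * (A * u (n + 1)) := mul_le_mul_of_nonneg_left hA p1.le
          _ = _ := by ring
      exact le_of_mul_le_mul_left this p2
    have h5 := ih (fun i hi => hpos i (by omega)) (fun i hi => hlc i (by omega)) h4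
    calc u (n + 1) ≤ A * u n := h4
      _ ≤ A * (A ^ n * u 0) := mul_le_mul_of_nonneg_left h5 hA0
      _ = _ := by ring

/-- Intermediate value theorem in the form used below. -/
lemma ivt0 (g : ℝ → ℝ) (hg : Continuous g) (h0 : g 0 = 0) {w z : ℝ} (hw : 0 ≤ w) (hz : 0 < z)
    (h : z ≤ g w) : ∃ y, 0 < y ∧ y ≤ w ∧ g y = z := by
  have := intermediate_value_Icc hw hg.continuousOn
  obtain ⟨y, hy, hyz⟩ := this ⟨by rw [h0]; exact hz.le, h⟩
  refine ⟨y, ?_, hy.2, hyz⟩
  rcases lt_or_eq_of_le hy.1 with h1 | h1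
  · exact h1
  · exfalso
    rw [← h1, h0] at hyz
    linarith

lemma iter_zero (g : ℝ → ℝ) (h0 : g 0 = 0) (n : ℕ) : g^[n] 0 = 0 := by
  induction n with
  | zero => rfl
  | succ n ih => rw [Function.iterate_succ_apply, h0, ih]

/-- Contracting log-convex map: the ratio near `0` is at least every ratio. -/
theorem contract (S : ℝ → ℝ) (hS : Continuous S) (h0 : S 0 = 0) (w : ℝ) (hw : 0 < w)
    (h1 : ∀ z, 0 < z → z ≤ w → 0 < S z ∧ S z < z)
    (h2 : ∀ z, 0 < z → z ≤ w → (S z) ^ 2 ≤ z * S (S z))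
    (A : ℝ) (hA : A * w < S w) : ∃ δ > 0, ∀ z, 0 < z → z < δ → A * z < S z := by
  by_cases hA0 : A ≤ 0
  · refine ⟨w, hw, fun z hz hzw => ?_⟩
    have := (h1 z hz hzw.le).1
    nlinarith
  rw [not_le] at hA0
  set B := S w / w with hB
  have hBw : B * w = S w := by rw [hB]; field_simp
  have hAB : A < B := by rw [hB, lt_div_iff₀ hw]; exact hA
  have hB0 : 0 < B := hA0.trans hAB
  have hB1 : B < 1 := by rw [hB, div_lt_one hw]; exact (h1 w hw le_rfl).2
  have hit : ∀ y, 0 < y → y ≤ w → ∀ n, 0 < S^[n] y ∧ S^[n] y ≤ w := by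
    intro y hy hyw n
    induction n with
    | zero => exact ⟨hy, hyw⟩
    | succ n ih =>
      rw [Function.iterate_succ_apply']
      obtain ⟨a, b⟩ := h1 _ ih.1 ih.2
      exact ⟨a, b.le.trans ih.2⟩
  have hlc : ∀ y, 0 < y → y ≤ w → ∀ n, (S^[n + 1] y) ^ 2 ≤ S^[n] y * S^[n + 2] y := by
    intro y hy hyw n
    have := hit y hy hyw n
    rw [show n + 2 = (n + 1) + 1 by ring, Function.iterate_succ_apply' S (n + 1),
      Function.iterate_succ_apply' S n]
    exact h2 _ this.1 this.2
  have ha : ∀ n, B ^ n * w ≤ S^[n] w := fun n =>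
    (fwd (fun n => S^[n] w) B n (fun i _ => (hit w hw le_rfl i).1)
      (fun i _ => hlc w hw le_rfl i) hB0.le (le_of_eq hBw)).1
  have hb : ∀ y, 0 < y → y ≤ w → ∀ n, S (S^[n] y) ≤ A * S^[n] y → S^[n] y ≤ A ^ n * w := by
    intro y hy hyw n hn
    have := bwd (fun n => S^[n] y) A n (fun i _ => (hit y hy hyw i).1)
      (fun i _ => hlc y hy hyw i) hA0.le (by
        show S^[n + 1] y ≤ _
        rw [Function.iterate_succ_apply']; exact hn)
    calc S^[n] y ≤ A ^ n * y := this
      _ ≤ A ^ n * w := mul_le_mul_of_nonneg_left hyw (by positivity)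
  have hq0 : 0 ≤ A / B := by positivity
  have hq1 : A / B < 1 := by rw [div_lt_one hB0]; exact hAB
  obtain ⟨N, hN⟩ := exists_pow_lt_of_lt_one hB0 hq1
  have hN' : ∀ n, N ≤ n → A ^ n < B ^ (n + 1) := by
    intro n hn
    have e : (A / B) ^ n < B := lt_of_le_of_lt (pow_le_pow_of_le_one hq0 hq1.le hn) hN
    rw [div_pow, div_lt_iff₀ (by positivity)] at e
    rw [pow_succ']
    exact e
  refine ⟨B ^ (N + 1) * w, by positivity, fun z hz hzδ => ?_⟩
  by_contra hcon
  rw [not_lt] at hcon
  have hBle : ∀ n, n ≤ N + 1 → z ≤ S^[n] w := by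
    intro n hn
    calc z ≤ B ^ (N + 1) * w := hzδ.le
      _ ≤ B ^ n * w := mul_le_mul_of_nonneg_right (pow_le_pow_of_le_one hB0.le hB1.le hn) hw.le
      _ ≤ _ := ha n
  have hle : ∀ n, z ≤ S^[n] w := by
    intro n
    induction n with
    | zero => exact hBle 0 (by omega)
    | succ n ih =>
      by_cases hn : n + 1 ≤ N + 1
      · exact hBle _ hn
      · obtain ⟨y, hy0, hyw, hyz⟩ := ivt0 (S^[n]) (hS.iterate n) (iter_zero S h0 n) hw.le hz ih
        have := hb y hy0 hyw n (by rw [hyz]; exact hcon)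
        rw [hyz] at this
        calc z ≤ A ^ n * w := this
          _ ≤ B ^ (n + 1) * w := mul_le_mul_of_nonneg_right (hN' n (by omega)).le hw.le
          _ ≤ _ := ha _
  have hAn : ∀ n, z ≤ A ^ n * w := by
    intro n
    obtain ⟨y, hy0, hyw, hyz⟩ := ivt0 (S^[n]) (hS.iterate n) (iter_zero S h0 n) hw.le hz (hle n)
    have := hb y hy0 hyw n (by rw [hyz]; exact hcon)
    rw [hyz] at this
    exact this
  obtain ⟨n, hn⟩ := exists_pow_lt_of_lt_one (div_pos hz hw) (hAB.trans hB1)
  rw [lt_div_iff₀ hw] at hn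
  linarith [hAn n]

/-- Expanding log-convex map: the ratio near `0` is at most every ratio. -/
theorem expand (T : ℝ → ℝ) (hT : Continuous T) (h0 : T 0 = 0) (w : ℝ) (hw : 0 < w)
    (h1 : ∀ z, 0 < z → z ≤ w → z < T z)
    (h2 : ∀ z, 0 < z → z ≤ w → T z ≤ w → (T z) ^ 2 ≤ z * T (T z))
    (B : ℝ) (hB : T w < B * w) : ∃ δ > 0, ∀ z, 0 < z → z < δ → T z < B * z := by
  set A := T w / w with hA
  have hAw : A * w = T w := by rw [hA]; field_simp
  have hAB : A < B := by rw [hA, div_lt_iff₀ hw]; exact hB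
  have hA1 : 1 < A := by rw [hA, one_lt_div hw]; exact h1 w hw le_rfl
  have hA0 : 0 < A := by linarith
  have hB0 : 0 < B := by linarith
  have hq0 : 0 ≤ A / B := by positivity
  have hq1 : A / B < 1 := by rw [div_lt_one hB0]; exact hAB
  obtain ⟨N, hN⟩ := exists_pow_lt_of_lt_one (inv_pos.mpr hA0) hq1
  have hN' : ∀ n, N ≤ n → A ^ (n + 1) < B ^ n := by
    intro n hn
    have e : (A / B) ^ n < A⁻¹ := lt_of_le_of_lt (pow_le_pow_of_le_one hq0 hq1.le hn) hN
    rw [div_pow, div_lt_iff₀ (by positivity)] at e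
    rw [pow_succ']
    calc A * A ^ n < A * (A⁻¹ * B ^ n) := mul_lt_mul_of_pos_left e hA0
      _ = B ^ n := by field_simp
  refine ⟨w / A ^ (N + 1), by positivity, fun z hz hzδ => ?_⟩
  by_contra hcon
  rw [not_lt] at hcon
  have hzw : A ^ (N + 1) * z < w := by
    rw [lt_div_iff₀ (by positivity)] at hzδ
    linarith
  have hz1 : z < w := by
    have : 1 ≤ A ^ (N + 1) := one_le_pow₀ hA1.le
    nlinarith
  -- all iterates of points of `(0, z]` stay below `w`
  have main : ∀ n, ∀ i, i ≤ n → ∀ y, 0 < y → y ≤ z → 0 < T^[i] y ∧ T^[i] y < w := by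
    intro n
    induction n with
    | zero =>
      intro i hi y hy hyz
      have : i = 0 := by omega
      subst this
      exact ⟨hy, lt_of_le_of_lt hyz hz1⟩
    | succ n ih =>
      intro i hi y hy hyz
      by_cases hin : i ≤ n
      · exact ih i hin y hy hyz
      have hi' : i = n + 1 := by omega
      subst hi'
      have hpos : ∀ y, 0 < y → y ≤ z → 0 < T^[n + 1] y := by
        intro y hy hyz
        rw [Function.iterate_succ_apply']
        obtain ⟨a, b⟩ := ih n le_rfl y hy hyz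
        exact a.trans (h1 _ a b.le)
      refine ⟨hpos y hy hyz, ?_⟩
      by_contra hge
      rw [not_lt] at hge
      obtain ⟨y', hy'0, hy'y, hy'w⟩ := ivt0 (T^[n + 1]) (hT.iterate _) (iter_zero T h0 _) hy.le hw hge
      have hy'z : y' ≤ z := hy'y.trans hyz
      have hub : ∀ i, i ≤ n + 1 → 0 < T^[i] y' ∧ T^[i] y' ≤ w := by
        intro i hi
        by_cases hin : i ≤ n
        · exact ⟨(ih i hin y' hy'0 hy'z).1, (ih i hin y' hy'0 hy'z).2.le⟩
        · have : i = n + 1 := by omega
          subst this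
          exact ⟨hpos y' hy'0 hy'z, le_of_eq hy'w⟩
      have hb := bwd (fun i => T^[i] y') A (n + 1) (fun i hi => (hub i hi).1)
        (fun i hi => by
          have a := hub i (by omega)
          have b := hub (i + 1) hi
          show (T^[i + 1] y') ^ 2 ≤ T^[i] y' * T^[i + 1 + 1] y'
          rw [Function.iterate_succ_apply' T (i + 1)]
          rw [Function.iterate_succ_apply' T i] at b ⊢
          exact h2 _ a.1 a.2 b.2) hA0.le (by
          show T^[n + 1 + 1] y' ≤ A * T^[n + 1] y'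
          rw [Function.iterate_succ_apply' T (n + 1), hy'w, hAw])
      have hb' : w ≤ A ^ (n + 1) * z := by
        calc w = T^[n + 1] y' := hy'w.symm
          _ ≤ A ^ (n + 1) * y' := hb
          _ ≤ A ^ (n + 1) * z := mul_le_mul_of_nonneg_left hy'z (by positivity)
      by_cases hn : n ≤ N
      · have : A ^ (n + 1) * z ≤ A ^ (N + 1) * z :=
          mul_le_mul_of_nonneg_right (pow_le_pow_right₀ hA1.le (by omega)) hz.le
        linarith
      · have hf := fwd (fun i => T^[i] z) B n (fun i hi => (ih i hi z hz le_rfl).1)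
          (fun i hi => by
            have a := ih i (by omega) z hz le_rfl
            have b := ih (i + 1) hi z hz le_rfl
            show (T^[i + 1] z) ^ 2 ≤ T^[i] z * T^[i + 1 + 1] z
            rw [Function.iterate_succ_apply' T (i + 1)]
            rw [Function.iterate_succ_apply' T i] at b ⊢
            exact h2 _ a.1 a.2.le b.2.le) hB0.le hcon
        have h5 : A ^ (n + 1) * z < B ^ n * z :=
          mul_lt_mul_of_pos_right (hN' n (by omega)) hz
        have h6 := (ih n le_rfl z hz le_rfl).2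
        have h7 : B ^ n * z ≤ T^[n] z := hf.1
        linarith
  have hgrow : ∀ n, B ^ n * z < w := by
    intro n
    have hf := fwd (fun i => T^[i] z) B n (fun i hi => (main n i hi z hz le_rfl).1)
      (fun i hi => by
        have a := main n i (by omega) z hz le_rfl
        have b := main n (i + 1) hi z hz le_rfl
        show (T^[i + 1] z) ^ 2 ≤ T^[i] z * T^[i + 1 + 1] z
        rw [Function.iterate_succ_apply' T (i + 1)]
        rw [Function.iterate_succ_apply' T i] at b ⊢
        exact h2 _ a.1 a.2.le b.2.le) hB0.le hcon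
    exact lt_of_le_of_lt hf.1 (main n n le_rfl z hz le_rfl).2
  obtain ⟨n, hn⟩ := pow_unbounded_of_one_lt (w / z) (hA1.trans hAB)
  rw [div_lt_iff₀ hz] at hn
  linarith [hgrow n]

/-- Iterates of a continuous map with `0 < F z < z` tend to `0`. -/
lemma iter_small (F : ℝ → ℝ) (hF : Continuous F) (w : ℝ)
    (h1 : ∀ z, 0 < z → z ≤ w → 0 < F z ∧ F z < z) (z : ℝ) (hz : 0 < z) (hzw : z ≤ w) (δ : ℝ)
    (hδ : 0 < δ) : ∃ n, 0 < F^[n] z ∧ F^[n] z < δ := by
  by_contra hcon
  push Not at hcon
  have hit : ∀ n, 0 < F^[n] z ∧ F^[n] z ≤ w := by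
    intro n
    induction n with
    | zero => exact ⟨hz, hzw⟩
    | succ n ih =>
      rw [Function.iterate_succ_apply']
      obtain ⟨a, b⟩ := h1 _ ih.1 ih.2
      exact ⟨a, b.le.trans ih.2⟩
  have hanti : Antitone (fun n => F^[n] z) := by
    apply antitone_nat_of_succ_le
    intro n
    rw [Function.iterate_succ_apply']
    exact (h1 _ (hit n).1 (hit n).2).2.le
  have hbdd : BddBelow (Set.range (fun n => F^[n] z)) := ⟨0, by
    rintro _ ⟨n, rfl⟩
    exact (hit n).1.le⟩
  have hlim := tendsto_atTop_ciInf hanti hbdd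
  set p := ⨅ n, F^[n] z with hp
  have hpδ : δ ≤ p := le_ciInf (fun n => hcon n (hit n).1)
  have hpw : p ≤ w := (ciInf_le hbdd 0).trans hzw
  have h3 : Filter.Tendsto (fun n => F (F^[n] z)) Filter.atTop (nhds (F p)) :=
    (hF.tendsto p).comp hlim
  have h4 : Filter.Tendsto (fun n => F^[n + 1] z) Filter.atTop (nhds p) :=
    hlim.comp (Filter.tendsto_add_atTop_nat 1)
  have h5 : F p = p := by
    refine tendsto_nhds_unique h3 ?_
    simpa only [Function.iterate_succ_apply'] using h4
  have := (h1 p (by linarith) hpw).2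
  linarith

end Run7.h6.FE
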