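import Mathlib

/-!
# Completely monotone arrays are log-convex
-/

namespace Run7.h6.FE

open Finset

/-- In an array with the Pascal relation, an entry is a binomial sum over an antidiagonal. -/
lemma pascal_sum (a : ℕ → ℕ → ℝ) (h : ∀ i j, a i j = a i (j + 1) + a (i + 1) j) (n i0 j0 : ℕ) :
    a i0 j0 = ∑ p ∈ antidiagonal n, (n.choose p.1 : ℝ) * a (i0 + p.1) (j0 + p.2) := by
  induction n generalizing i0 j0 with
  | zero => simp
  | succ n ih =>
    rw [Finset.sum_antidiagonal_choose_succ_mul (fun i j => a (i0 + i) (j0 + j)) n]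
    rw [h i0 j0, ih i0 (j0 + 1), ih (i0 + 1) j0]
    congr 1
    · apply Finset.sum_congr rfl
      intro p _
      rw [show j0 + 1 + p.2 = j0 + (p.2 + 1) by ring]
    · apply Finset.sum_congr rfl
      intro p hp
      rw [show i0 + 1 + p.1 = i0 + (p.1 + 1) by ring]
      have : p.1 + p.2 = n := by simpa using hp
      rw [← this, Nat.choose_symm_add]

/-- First factorial moment. -/
lemma moment1 (g : ℕ → ℕ → ℝ) (n : ℕ) :
    ∑ p ∈ antidiagonal (n + 1), ((n + 1).choose p.1 : ℝ) * ((p.2 : ℝ) * g p.1 p.2)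
      = ((n : ℝ) + 1) * ∑ p ∈ antidiagonal n, (n.choose p.1 : ℝ) * g p.1 (p.2 + 1) := by
  rw [Finset.Nat.sum_antidiagonal_succ']
  simp only [Nat.cast_zero, zero_mul, mul_zero, zero_add, Finset.mul_sum]
  apply Finset.sum_congr rfl
  intro p hp
  have hpn : p.1 + p.2 = n := by simpa using hp
  have h1 : (n + 1).choose p.1 = (n + 1).choose (p.2 + 1) := by
    rw [← hpn, show p.1 + p.2 + 1 = p.1 + (p.2 + 1) by ring]
    exact Nat.choose_symm_add
  have h2 : n.choose p.1 = n.choose p.2 := by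
    rw [← hpn]; exact Nat.choose_symm_add
  have h3 : (n + 1) * n.choose p.2 = (n + 1).choose (p.2 + 1) * (p.2 + 1) :=
    Nat.add_one_mul_choose_eq n p.2
  have h4 : ((n : ℝ) + 1) * (n.choose p.1 : ℝ) = ((n + 1).choose p.1 : ℝ) * ((p.2 : ℝ) + 1) := by
    rw [h1, h2]; exact_mod_cast h3
  push_cast
  calc _ = (((n + 1).choose p.1 : ℝ) * ((p.2 : ℝ) + 1)) * g p.1 (p.2 + 1) := by ring
    _ = _ := by rw [← h4]; ring

/-- Second factorial moment. -/
lemma moment2 (g : ℕ → ℕ → ℝ) (n : ℕ) :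
    ∑ p ∈ antidiagonal (n + 2),
        ((n + 2).choose p.1 : ℝ) * ((p.2 : ℝ) * (((p.2 : ℝ) - 1) * g p.1 p.2))
      = ((n : ℝ) + 2) * (((n : ℝ) + 1) *
        ∑ p ∈ antidiagonal n, (n.choose p.1 : ℝ) * g p.1 (p.2 + 2)) := by
  have h := moment1 (fun i j => ((j : ℝ) - 1) * g i j) (n + 1)
  have h' := moment1 (fun i j => g i (j + 1)) n
  rw [show n + 2 = n + 1 + 1 by ring, h]
  have e : ∀ p : ℕ × ℕ, ((n + 1).choose p.1 : ℝ) * ((((p.2 + 1 : ℕ) : ℝ) - 1) * g p.1 (p.2 + 1))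
      = ((n + 1).choose p.1 : ℝ) * ((p.2 : ℝ) * g p.1 (p.2 + 1)) := by
    intro p; push_cast; ring
  simp only [e]
  rw [h']
  push_cast
  ring_nf

/-- Log-convexity of the first row of a nonnegative Pascal array. -/
theorem logconv (a : ℕ → ℕ → ℝ) (h0 : ∀ i j, 0 ≤ a i j)
    (h : ∀ i j, a i j = a i (j + 1) + a (i + 1) j) :
    (a 0 1) ^ 2 ≤ a 0 0 * a 0 2 := by
  have key : ∀ n : ℕ, (n : ℝ) * ((a 0 1) ^ 2 - a 0 0 * a 0 2)
      ≤ a 0 0 * a 0 1 + a 0 0 * a 0 2 := by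
    intro n
    have e0 := pascal_sum a h (n + 2) 0 0
    have e1 := pascal_sum a h (n + 1) 0 1
    have e2 := pascal_sum a h n 0 2
    have m1 := moment1 (fun i j => a i j) (n + 1)
    have m2 := moment2 (fun i j => a i j) n
    simp only [zero_add] at e0 e1 e2
    have e1' : a 0 1 = ∑ p ∈ antidiagonal (n + 1), ((n + 1).choose p.1 : ℝ) * a p.1 (p.2 + 1) := by
      rw [e1]; apply Finset.sum_congr rfl; intro p _; rw [add_comm 1 p.2]
    have e2' : a 0 2 = ∑ p ∈ antidiagonal n, (n.choose p.1 : ℝ) * a p.1 (p.2 + 2) := by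
      rw [e2]; apply Finset.sum_congr rfl; intro p _; rw [add_comm 2 p.2]
    rw [← e1'] at m1
    rw [← e2'] at m2
    have cs := Finset.sum_sq_le_sum_mul_sum_of_sq_le_mul (antidiagonal (n + 2))
      (r := fun p => ((n + 2).choose p.1 : ℝ) * ((p.2 : ℝ) * a p.1 p.2))
      (f := fun p => ((n + 2).choose p.1 : ℝ) * a p.1 p.2)
      (g := fun p => ((n + 2).choose p.1 : ℝ) * ((p.2 : ℝ) * ((p.2 : ℝ) * a p.1 p.2)))
      (by intro p _; exact mul_nonneg (by positivity) (h0 _ _))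
      (by intro p _
          exact mul_nonneg (by positivity) (mul_nonneg (by positivity)
            (mul_nonneg (by positivity) (h0 _ _))))
      (by intro p _; exact le_of_eq (by ring))
    have e3 : ∑ p ∈ antidiagonal (n + 2),
        ((n + 2).choose p.1 : ℝ) * ((p.2 : ℝ) * ((p.2 : ℝ) * a p.1 p.2))
        = ((n : ℝ) + 2) * (((n : ℝ) + 1) * a 0 2) + ((n : ℝ) + 2) * a 0 1 := by
      rw [← m2]
      have : ((n : ℝ) + 2) * a 0 1 = (((n + 1 : ℕ) : ℝ) + 1) * a 0 1 := by push_cast; ring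
      rw [this, ← m1, ← Finset.sum_add_distrib]
      apply Finset.sum_congr rfl
      intro p _
      ring
    rw [e3, ← e0, m1] at cs
    push_cast at cs
    have hn : (0 : ℝ) < (n : ℝ) + 2 := by positivity
    have cs' : ((n : ℝ) + 2) * (((n : ℝ) + 2) * (a 0 1) ^ 2)
        ≤ ((n : ℝ) + 2) * (a 0 0 * (((n : ℝ) + 1) * a 0 2 + a 0 1)) := by
      calc _ = (((n : ℝ) + 1 + 1) * a 0 1) ^ 2 := by ring
        _ ≤ _ := cs
        _ = _ := by ring
    have cs'' := le_of_mul_le_mul_left cs' hn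
    have h1 := h0 0 0
    have h2 := h0 0 2
    nlinarith [sq_nonneg (a 0 1), mul_nonneg h1 h2]
  by_contra hcon
  rw [not_le] at hcon
  have hpos : 0 < (a 0 1) ^ 2 - a 0 0 * a 0 2 := by linarith
  obtain ⟨n, hn⟩ := exists_nat_gt
    ((a 0 0 * a 0 1 + a 0 0 * a 0 2) / ((a 0 1) ^ 2 - a 0 0 * a 0 2))
  rw [div_lt_iff₀ hpos] at hn
  linarith [key n]

/-- Log-convexity of the first column of a nonnegative Pascal array. -/
theorem logconv' (a : ℕ → ℕ → ℝ) (h0 : ∀ i j, 0 ≤ a i j)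
    (h : ∀ i j, a i j = a i (j + 1) + a (i + 1) j) :
    (a 1 0) ^ 2 ≤ a 0 0 * a 2 0 :=
  logconv (fun i j => a j i) (fun i j => h0 j i) (fun i j => by
    show a j i = a (j + 1) i + a j (i + 1)
    rw [h j i]; ring)

end Run7.h6.FE
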