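import Pool.Agent.Run7.h6.FE.Neg

/-!
# Classification of the continuous solutions
-/

namespace Run7.h6.FE

variable {f : ℝ → ℝ}

/-- A continuous function without zeros on an interval has constant sign there. -/
lemma sign_const (g : ℝ → ℝ) (hg : Continuous g) {ε : ℝ} (hε : 0 < ε)
    (hne : ∀ x, 0 < x → x < ε → g x ≠ 0) :
    (∀ x, 0 < x → x < ε → 0 < g x) ∨ (∀ x, 0 < x → x < ε → g x < 0) := by
  by_contra hcon
  rw [not_or] at hcon
  obtain ⟨h1, h2⟩ := hcon
  push Not at h1 h2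
  obtain ⟨a, ha0, haε, ha⟩ := h1
  obtain ⟨b, hb0, hbε, hb⟩ := h2
  have hmem : (0 : ℝ) ∈ Set.uIcc (g a) (g b) := by
    rw [Set.uIcc_of_le (ha.trans hb)]; exact ⟨ha, hb⟩
  obtain ⟨x, hx, hgx⟩ := intermediate_value_uIcc hg.continuousOn hmem
  rcases Set.mem_uIcc.mp hx with h3 | h3
  · exact hne x (ha0.trans_le h3.1) (h3.2.trans_lt hbε) hgx
  · exact hne x (hb0.trans_le h3.1) (h3.2.trans_lt haε) hgx

/-- Trichotomy at `0` from the right. -/
lemma trichotomy (g : ℝ → ℝ) (hg : Continuous g) :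
    (∃ ε > 0, ∀ x, 0 < x → x < ε → 0 < g x) ∨ (∃ ε > 0, ∀ x, 0 < x → x < ε → g x < 0) ∨
      (∀ δ > 0, ∃ z, 0 < z ∧ z < δ ∧ g z = 0) := by
  by_cases h : ∀ δ > 0, ∃ z, 0 < z ∧ z < δ ∧ g z = 0
  · exact Or.inr (Or.inr h)
  push Not at h
  obtain ⟨ε, hε, hne⟩ := h
  rcases sign_const g hg hε hne with h1 | h1
  · exact Or.inl ⟨ε, hε, h1⟩
  · exact Or.inr (Or.inl ⟨ε, hε, h1⟩)

/-- The case where `f` changes sign from `+` to `-` at `0`. -/
theorem Sol.caseNeg (h : Sol f) {ε : ℝ} (hε : 0 < ε) (h1 : ∀ x, 0 < x → x < ε → f x < 0)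
    (h2 : ∀ x, 0 < x → x < ε → 0 < f (-x)) : ∃ c, ∀ x, f x = c * x := by
  by_cases hz : ∀ δ > 0, ∃ w, 0 < w ∧ w < δ ∧ T f w = 0
  · -- `T = 0`
    have a := h.T_nonpos hz
    have b := h.reflect.T_nonpos (fun δ hδ => by
      obtain ⟨w, hw0, hw1, hw2⟩ := hz δ hδ
      exact ⟨w, hw0, hw1, by rw [T_reflect, h.W_symm hw2, neg_zero]⟩)
    refine ⟨-1, fun x => ?_⟩
    have h3 := a x
    have h4 := b (-x)
    rw [T_reflect, neg_neg] at h4
    unfold T at h3 h4
    linarith
  push Not at hz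
  obtain ⟨η, hη, hne⟩ := hz
  have hne' : ∀ x, 0 < x → x < η → (fun x => T f (-x)) x ≠ 0 := by
    intro x hx hxη h0
    have := h.W_symm h0
    rw [neg_neg] at this
    exact hne x hx hxη this
  -- smallness
  obtain ⟨ρ', hρ', hsm⟩ : ∃ ρ > 0, ∀ x, |x| < ρ → |f x| < min ε η ∧ |T f x| < min ε η := by
    have hm : 0 < min ε η := lt_min hε hη
    obtain ⟨δ, hδ, hd⟩ := Metric.continuous_iff.mp h.cont 0 _ hm
    obtain ⟨δ', hδ', hd'⟩ := Metric.continuous_iff.mp h.contT 0 _ hm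
    refine ⟨min δ δ', lt_min hδ hδ', fun x hx => ⟨?_, ?_⟩⟩
    · have := hd x (by simpa [Real.dist_eq] using hx.trans_le (min_le_left _ _))
      simpa only [Real.dist_eq, h.zero, sub_zero] using this
    · have := hd' x (by simpa [Real.dist_eq] using hx.trans_le (min_le_right _ _))
      simpa only [Real.dist_eq, h.T0, sub_zero] using this
  set r := min (min ε η) ρ' with hr
  have hr0 : 0 < r := lt_min (lt_min hε hη) hρ'
  have hrε : r ≤ ε := (min_le_left _ _).trans (min_le_left _ _)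
  have hrη : r ≤ η := (min_le_left _ _).trans (min_le_right _ _)
  have hrρ : r ≤ ρ' := min_le_right _ _
  rcases sign_const (T f) h.contT hη hne with hP | hP <;>
    rcases sign_const (fun x => T f (-x)) (h.contT.comp continuous_neg) hη hne' with hN | hN
  · -- `T > 0` on both sides: impossible
    exfalso
    have hx : 0 < r / 2 := by linarith
    have hxr : r / 2 < r := by linarith
    obtain ⟨s1, s2⟩ := hsm (-(r / 2)) (by rw [abs_neg, abs_of_pos hx]; linarith)
    have a1 := h2 _ hx (by linarith)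
    have a2 : 0 < T f (-(r / 2)) := hN _ hx (by linarith)
    rw [abs_of_pos a1] at s1
    rw [abs_of_pos a2] at s2
    have a3 := h1 _ a2 (s2.trans_le (min_le_left _ _))
    have a4 := hP _ a1 (s1.trans_le (min_le_right _ _))
    rw [h.comm] at a3
    linarith
  · -- `x` and `T x` have the same sign
    refine h.caseM1 hr0 ?_
    intro x hx0 hxr
    rcases lt_or_gt_of_ne (abs_pos.mp hx0) with hx | hx
    · rw [abs_of_neg hx] at hxr
      have a1 := h2 (-x) (by linarith) (by linarith)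
      have a2 : T f (- -x) < 0 := hN (-x) (by linarith) (by linarith)
      rw [neg_neg] at a1 a2
      exact ⟨mul_pos_of_neg_of_neg hx a2, mul_neg_of_neg_of_pos hx a1⟩
    · rw [abs_of_pos hx] at hxr
      exact ⟨mul_pos hx (hP x hx (by linarith)), mul_neg_of_pos_of_neg hx (h1 x hx (by linarith))⟩
  · -- `x` and `T x` have opposite signs
    refine h.caseM2 hr0 ?_
    intro x hx0 hxr
    rcases lt_or_gt_of_ne (abs_pos.mp hx0) with hx | hx
    · rw [abs_of_neg hx] at hxr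
      have a2 : 0 < T f (- -x) := hN (-x) (by linarith) (by linarith)
      rw [neg_neg] at a2
      exact mul_neg_of_neg_of_pos hx a2
    · rw [abs_of_pos hx] at hxr
      exact mul_neg_of_pos_of_neg hx (hP x hx (by linarith))
  · -- `T < 0` on both sides: impossible
    exfalso
    have hx : 0 < r / 2 := by linarith
    have hxr : r / 2 < r := by linarith
    obtain ⟨s1, s2⟩ := hsm (r / 2) (by rw [abs_of_pos hx]; linarith)
    have a1 := h1 _ hx (by linarith)
    have a2 : T f (r / 2) < 0 := hP _ hx (by linarith)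
    rw [abs_of_neg a1] at s1
    rw [abs_of_neg a2] at s2
    have a3 := h2 (-T f (r / 2)) (by linarith) (s2.trans_le (min_le_left _ _))
    have a4 : T f (- -f (r / 2)) < 0 := hN _ (by linarith) (s1.trans_le (min_le_right _ _))
    rw [neg_neg] at a3 a4
    rw [h.comm] at a3
    linarith

/-- Classification of the continuous solutions. -/
theorem Sol.classify (h : Sol f) :
    (∃ a, ∀ x, f x = a * x) ∨
      (∃ α β, 0 ≤ α ∧ 0 ≤ β ∧ ∀ x, f x = α * max x 0 + β * min x 0) := by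
  have comb : ∀ α β, 0 ≤ α → 0 ≤ β → (∀ x, 0 ≤ x → f x = α * x) → (∀ x, x ≤ 0 → f x = β * x) →
      (∃ α β, 0 ≤ α ∧ 0 ≤ β ∧ ∀ x, f x = α * max x 0 + β * min x 0) := by
    intro α β hα hβ h1 h2
    refine ⟨α, β, hα, hβ, fun x => ?_⟩
    rcases le_total 0 x with hx | hx
    · rw [max_eq_left hx, min_eq_right hx, mul_zero, add_zero, h1 x hx]
    · rw [max_eq_right hx, min_eq_left hx, mul_zero, zero_add, h2 x hx]
  have hg := h.reflect
  -- facts from the right
  have P1 : (∃ ε > 0, ∀ x, 0 < x → x < ε → 0 < f x) →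
      ∃ α, 0 < α ∧ (∀ x, 0 ≤ x → f x = α * x) ∧ ∀ x, x ≤ 0 → f x ≤ 0 := by
    rintro ⟨ε, hε, hp⟩
    obtain ⟨c, hc, h1⟩ := h.caseI hε hp
    exact ⟨c, hc, h1, h.neg_of_pos hc.le h1⟩
  have N1 : (∃ ε > 0, ∀ x, 0 < x → x < ε → 0 < - f (-x)) →
      ∃ β, 0 < β ∧ (∀ x, x ≤ 0 → f x = β * x) ∧ ∀ x, 0 ≤ x → 0 ≤ f x := by
    rintro ⟨ε, hε, hp⟩
    obtain ⟨c, hc, h1⟩ := hg.caseI hε hp
    refine ⟨c, hc, fun x hx => ?_, fun x hx => ?_⟩
    · have := h1 (-x) (by linarith)
      simp only [neg_neg] at this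
      linarith
    · have := hg.neg_of_pos hc.le h1 (-x) (by linarith)
      simp only [neg_neg] at this
      linarith
  have P3 : (∀ δ > 0, ∃ z, 0 < z ∧ z < δ ∧ f z = 0) → ∀ x, f x ≤ 0 := h.zeros_acc
  have N3 : (∀ δ > 0, ∃ z, 0 < z ∧ z < δ ∧ - f (-z) = 0) → ∀ x, 0 ≤ f x := by
    intro hz x
    have := hg.zeros_acc hz (-x)
    simp only [neg_neg] at this
    linarith
  rcases trichotomy f h.cont with p1 | ⟨ε, hε, p2⟩ | p3 <;>
    rcases trichotomy (fun x => - f (-x)) hg.cont with n1 | ⟨ε', hε', n2⟩ | n3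
  · obtain ⟨α, hα, a1, a2⟩ := P1 p1
    obtain ⟨β, hβ, b1, b2⟩ := N1 n1
    exact Or.inr (comb α β hα.le hβ.le a1 b1)
  · exfalso
    obtain ⟨α, hα, a1, a2⟩ := P1 p1
    have h3 := a2 (-(ε' / 2)) (by linarith)
    have h4 : - f (-(ε' / 2)) < 0 := n2 (ε' / 2) (by linarith) (by linarith)
    linarith
  · obtain ⟨α, hα, a1, a2⟩ := P1 p1
    have b := N3 n3
    refine Or.inr (comb α 0 hα.le le_rfl a1 fun x hx => ?_)
    rw [zero_mul]
    exact le_antisymm (a2 x hx) (b x)
  · exfalso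
    obtain ⟨β, hβ, b1, b2⟩ := N1 n1
    have h3 := b2 (ε / 2) (by linarith)
    have h4 := p2 (ε / 2) (by linarith) (by linarith)
    linarith
  · left
    refine h.caseNeg (lt_min hε hε') (fun x hx hxε => p2 x hx (hxε.trans_le (min_le_left _ _)))
      (fun x hx hxε => ?_)
    have : - f (-x) < 0 := n2 x hx (hxε.trans_le (min_le_right _ _))
    linarith
  · exfalso
    have b := N3 n3 (ε / 2)
    have h4 := p2 (ε / 2) (by linarith) (by linarith)
    linarith
  · obtain ⟨β, hβ, b1, b2⟩ := N1 n1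
    have a := P3 p3
    refine Or.inr (comb 0 β le_rfl hβ.le (fun x hx => ?_) b1)
    rw [zero_mul]
    exact le_antisymm (a x) (b2 x hx)
  · exfalso
    have a := P3 p3 (-(ε' / 2))
    have h4 : - f (-(ε' / 2)) < 0 := n2 (ε' / 2) (by linarith) (by linarith)
    linarith
  · left
    have a := P3 p3
    have b := N3 n3
    exact ⟨0, fun x => by rw [zero_mul]; exact le_antisymm (a x) (b x)⟩

/-- The functional equation holds for the listed functions. -/
theorem converse (hf : (∃ a, ∀ x, f x = a * x) ∨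
      (∃ α β, 0 ≤ α ∧ 0 ≤ β ∧ ∀ x, f x = α * max x 0 + β * min x 0)) :
    ∀ x, f (x + f x) = f x + f (f x) := by
  rcases hf with ⟨a, ha⟩ | ⟨α, β, hα, hβ, h⟩
  · intro x
    simp only [ha]
    ring
  · have hp : ∀ x, 0 ≤ x → f x = α * x := by
      intro x hx
      rw [h, max_eq_left hx, min_eq_right hx]; ring
    have hn : ∀ x, x ≤ 0 → f x = β * x := by
      intro x hx
      rw [h, max_eq_right hx, min_eq_left hx]; ring
    intro x
    rcases le_total 0 x with hx | hx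
    · have h0 : 0 ≤ α * x := mul_nonneg hα hx
      rw [hp x hx, hp _ h0, hp (x + α * x) (by linarith)]
      ring
    · have h0 : β * x ≤ 0 := mul_nonpos_of_nonneg_of_nonpos hβ hx
      rw [hn x hx, hn _ h0, hn (x + β * x) (by linarith)]
      ring

/-- Full classification as an equivalence. -/
theorem classification (f : ℝ → ℝ) (hf : Continuous f) :
    (∀ x, f (x + f x) = f x + f (f x)) ↔
      (∃ a, ∀ x, f x = a * x) ∨
        (∃ α β, 0 ≤ α ∧ 0 ≤ β ∧ ∀ x, f x = α * max x 0 + β * min x 0) :=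
  ⟨fun h => Sol.classify ⟨hf, h⟩, converse⟩

end Run7.h6.FE
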