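import Pool.Agent.Run7.h6.FE.Cases

/-!
# The case where `x` and `f x` have opposite signs near zero
-/

namespace Run7.h6.FE

variable {f : ℝ → ℝ}

lemma T_comm_iter (h : Sol f) (i : ℕ) (y : ℝ) : f^[i] (T f y) = T f (f^[i] y) := by
  induction i with
  | zero => rfl
  | succ i ih => rw [Function.iterate_succ_apply', ih, h.comm, Function.iterate_succ_apply']

/-! ### `x`, `T x` of the same sign -/

/-- hypotheses of the first case -/
def HM1 (f : ℝ → ℝ) (r : ℝ) : Prop := ∀ x, 0 < |x| → |x| < r → 0 < x * T f x ∧ x * f x < 0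

lemma HM1.add {r : ℝ} (hD : HM1 f r) {x : ℝ} (h0 : 0 < |x|) (hr : |x| < r) :
    |x| = |T f x| + |f x| ∧ 0 < |T f x| ∧ 0 < |f x| := by
  obtain ⟨h1, h2⟩ := hD x h0 hr
  have hT : T f x = x + f x := rfl
  rcases lt_or_gt_of_ne (abs_pos.mp h0) with hx | hx
  · have h3 : T f x < 0 := by nlinarith
    have h4 : 0 < f x := by nlinarith
    rw [abs_of_neg hx, abs_of_neg h3, abs_of_pos h4]
    refine ⟨by rw [hT]; ring, by linarith, h4⟩
  · have h3 : 0 < T f x := by
      by_contra hc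
      rw [not_lt] at hc
      nlinarith
    have h4 : f x < 0 := by
      by_contra hc
      rw [not_lt] at hc
      nlinarith
    rw [abs_of_pos hx, abs_of_pos h3, abs_of_neg h4]
    refine ⟨by rw [hT]; ring, h3, by linarith⟩

lemma HM1.iterT {r : ℝ} (hD : HM1 f r) {x : ℝ} (h0 : 0 < |x|) (hr : |x| < r) (j : ℕ) :
    0 < |(T f)^[j] x| ∧ |(T f)^[j] x| < r := by
  induction j with
  | zero => exact ⟨h0, hr⟩
  | succ j ih =>
    rw [Function.iterate_succ_apply']
    obtain ⟨a, b, c⟩ := hD.add ih.1 ih.2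
    exact ⟨b, by linarith [ih.2]⟩

lemma HM1.iterf {r : ℝ} (hD : HM1 f r) {x : ℝ} (h0 : 0 < |x|) (hr : |x| < r) (j : ℕ) :
    0 < |f^[j] x| ∧ |f^[j] x| < r := by
  induction j with
  | zero => exact ⟨h0, hr⟩
  | succ j ih =>
    rw [Function.iterate_succ_apply']
    obtain ⟨a, b, c⟩ := hD.add ih.1 ih.2
    exact ⟨c, by linarith [ih.2]⟩

lemma HM1.pascal (h : Sol f) {r : ℝ} (hD : HM1 f r) {x : ℝ} (h0 : 0 < |x|) (hr : |x| < r)
    (i j : ℕ) :
    |f^[i] ((T f)^[j] x)| = |f^[i] ((T f)^[j + 1] x)| + |f^[i + 1] ((T f)^[j] x)| := by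
  have h1 := hD.iterT h0 hr j
  have h2 := hD.iterf h1.1 h1.2 i
  rw [Function.iterate_succ_apply' (T f) j, T_comm_iter h, Function.iterate_succ_apply' f i]
  exact (hD.add h2.1 h2.2).1

lemma HM1.sqT (h : Sol f) {r : ℝ} (hD : HM1 f r) {x : ℝ} (h0 : 0 < |x|) (hr : |x| < r) :
    |T f x| ^ 2 ≤ |x| * |T f (T f x)| :=
  logconv (fun i j => |f^[i] ((T f)^[j] x)|) (fun _ _ => abs_nonneg _) (hD.pascal h h0 hr)

lemma HM1.sqf (h : Sol f) {r : ℝ} (hD : HM1 f r) {x : ℝ} (h0 : 0 < |x|) (hr : |x| < r) :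
    |f x| ^ 2 ≤ |x| * |f (f x)| :=
  logconv' (fun i j => |f^[i] ((T f)^[j] x)|) (fun _ _ => abs_nonneg _) (hD.pascal h h0 hr)

lemma HM1.side (h : Sol f) {r : ℝ} (hr : 0 < r) (hD : HM1 f r) :
    ∃ c, -1 < c ∧ c < 0 ∧ ∀ x, 0 < x → x < r → f x = c * x := by
  have hT : ∀ x, 0 < x → x < r → 0 < T f x ∧ T f x < x ∧ f x < 0 := by
    intro x hx hxr
    obtain ⟨h1, h2⟩ := hD x (abs_pos.mpr hx.ne') (by rw [abs_of_pos hx]; exact hxr)
    have h4 : f x < 0 := by
      by_contra hc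
      rw [not_lt] at hc
      nlinarith
    refine ⟨?_, by unfold T; linarith, h4⟩
    by_contra hc
    rw [not_lt] at hc
    nlinarith
  have hf : ∀ x, x < 0 → -r < x → 0 < f x ∧ f x < -x := by
    intro x hx hxr
    have h0 : 0 < |x| := abs_pos.mpr hx.ne
    have hlt : |x| < r := by rw [abs_of_neg hx]; linarith
    obtain ⟨h1, h2⟩ := hD x h0 hlt
    have h3 : T f x < 0 := by nlinarith
    have h4 : 0 < f x := by nlinarith
    exact ⟨h4, by unfold T at h3; linarith⟩
  have key : ∀ z, 0 < z → z < r → ∀ w, 0 < w → w < r → T f w * z ≤ T f z * w := by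
    intro z hz hzr w hw hwr
    by_contra hcon
    rw [not_le] at hcon
    set A := T f z / z with hA
    have hAz : T f z = A * z := by rw [hA]; field_simp
    have hTz := hT z hz hzr
    have hA1 : A < 1 := by rw [hA, div_lt_one hz]; exact hTz.2.1
    have hAw : A * w < T f w := by
      have : (A * w) * z < T f w * z := by
        calc (A * w) * z = T f z * w := by rw [hAz]; ring
          _ < _ := hcon
      exact lt_of_mul_lt_mul_right this hz.le
    obtain ⟨δ, hδ, hd⟩ := contract (T f) h.contT h.T0 w hw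
      (fun y hy hyw => ⟨(hT y hy (hyw.trans_lt hwr)).1, (hT y hy (hyw.trans_lt hwr)).2.1⟩)
      (fun y hy hyw => by
        have h1 := hT y hy (hyw.trans_lt hwr)
        have h2 := hT (T f y) h1.1 (h1.2.1.trans (hyw.trans_lt hwr))
        have := hD.sqT h (x := y) (abs_pos.mpr hy.ne')
          (by rw [abs_of_pos hy]; exact hyw.trans_lt hwr)
        rwa [abs_of_pos hy, abs_of_pos h1.1, abs_of_pos h2.1] at this) A hAw
    have hz0 : 0 < |z| := abs_pos.mpr hz.ne'
    have hzr' : |z| < r := by rw [abs_of_pos hz]; exact hzr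
    obtain ⟨n, hn1, hn2⟩ := iter_small (f^[2]) (h.cont.iterate 2) z
      (fun y hy hyz => by
        have h1 := hT y hy (hyz.trans_lt hzr)
        have h2 := h1.1
        unfold T at h2
        have h3 := hf (f y) h1.2.2 (by linarith)
        show 0 < f (f y) ∧ f (f y) < y
        exact ⟨h3.1, by linarith⟩) z hz le_rfl δ hδ
    rw [← Function.iterate_mul] at hn1 hn2
    have hfw := fwd (fun i => |f^[i] z|) (1 - A) (2 * n) (fun i _ => (hD.iterf hz0 hzr' i).1)
      (fun i _ => by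
        have a := hD.iterf hz0 hzr' i
        have := hD.sqf h a.1 a.2
        show |f^[i + 1] z| ^ 2 ≤ |f^[i] z| * |f^[i + 1 + 1] z|
        rw [Function.iterate_succ_apply' f (i + 1), Function.iterate_succ_apply' f i]
        exact this) (by linarith) (by
          have := (hD.add hz0 hzr').1
          rw [abs_of_pos hTz.1, hAz, abs_of_pos hz] at this
          show (1 - A) * |z| ≤ |f z|
          rw [abs_of_pos hz]
          linarith)
    have h5 := hfw.2
    set y := f^[2 * n] z with hy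
    have h5' : (1 - A) * |y| ≤ |f y| := by
      have e : f^[2 * n + 1] z = f y := by rw [Function.iterate_succ_apply']
      rw [← e]; exact h5
    have hyr := (hD.iterf hz0 hzr' (2 * n)).2
    rw [← hy, abs_of_pos hn1] at hyr
    have h6 := hd y hn1 hn2
    have h7 := hT y hn1 hyr
    rw [abs_of_pos hn1, abs_of_neg h7.2.2] at h5'
    have h8 : T f y = y + f y := rfl
    nlinarith
  have hr2 : 0 < r / 2 := by linarith
  have hr2r : r / 2 < r := by linarith
  have hTr := hT _ hr2 hr2r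
  have hT' : T f (r / 2) = r / 2 + f (r / 2) := rfl
  refine ⟨f (r / 2) / (r / 2), ?_, div_neg_of_neg_of_pos hTr.2.2 hr2, ?_⟩
  · rw [lt_div_iff₀ hr2]; linarith [hTr.1]
  intro x hx hxr
  have a := key x hx hxr (r / 2) hr2 hr2r
  have b := key (r / 2) hr2 hr2r x hx hxr
  have c : T f x = x + f x := rfl
  rw [hT', c] at a b
  field_simp
  nlinarith

theorem Sol.caseM1 (h : Sol f) {r : ℝ} (hr : 0 < r) (hD : HM1 f r) : ∃ c, ∀ x, f x = c * x := by
  obtain ⟨c, hc1, hc0, hc⟩ := hD.side h hr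
  have hD' : HM1 (fun x => - f (-x)) r := by
    intro x h0 hxr
    obtain ⟨h1, h2⟩ := hD (-x) (by rw [abs_neg]; exact h0) (by rw [abs_neg]; exact hxr)
    rw [T_reflect]
    constructor
    · linarith
    · show x * (- f (-x)) < 0
      linarith
  obtain ⟨d, hd1, hd0, hd⟩ := hD'.side h.reflect hr
  have hd' : ∀ x, x < 0 → -r < x → f x = d * x := by
    intro x hx hxr
    have := hd (-x) (by linarith) (by linarith)
    simp only [neg_neg] at this
    linarith
  -- compare the two slopes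
  have e1 : c = d := by
    have hr2 : 0 < r / 2 := by linarith
    have a1 := hD.sqf h (x := r / 2) (by rw [abs_of_pos hr2]; exact hr2)
      (by rw [abs_of_pos hr2]; linarith)
    have a2 := hD.sqf h (x := -(r / 2)) (by rw [abs_neg, abs_of_pos hr2]; exact hr2)
      (by rw [abs_neg, abs_of_pos hr2]; linarith)
    rw [hc (r / 2) hr2 (by linarith)] at a1
    rw [hd' (-(r / 2)) (by linarith) (by linarith)] at a2
    rw [hd' (c * (r / 2)) (mul_neg_of_neg_of_pos hc0 hr2) (by nlinarith)] at a1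
    rw [hc (d * -(r / 2)) (by nlinarith) (by nlinarith)] at a2
    simp only [abs_mul, abs_neg, abs_of_pos hr2, abs_of_neg hc0, abs_of_neg hd0] at a1 a2
    have hq : 0 < (r / 2) ^ 2 := by positivity
    have b1 : c ^ 2 * (r / 2) ^ 2 ≤ (d * c) * (r / 2) ^ 2 := by
      calc c ^ 2 * (r / 2) ^ 2 = (-c * (r / 2)) ^ 2 := by ring
        _ ≤ r / 2 * (-d * (-c * (r / 2))) := a1
        _ = _ := by ring
    have b2 : d ^ 2 * (r / 2) ^ 2 ≤ (c * d) * (r / 2) ^ 2 := by
      calc d ^ 2 * (r / 2) ^ 2 = (-d * (r / 2)) ^ 2 := by ring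
        _ ≤ r / 2 * (-c * (-d * (r / 2))) := a2
        _ = _ := by ring
    have b1' := le_of_mul_le_mul_right b1 hq
    have b2' := le_of_mul_le_mul_right b2 hq
    nlinarith
  refine ⟨c, h.ext_neg2 hc1 hc0 hr ?_⟩
  intro x hx
  rw [abs_lt] at hx
  rcases lt_trichotomy x 0 with h1 | h1 | h1
  · rw [e1]; exact hd' x h1 hx.1
  · rw [h1, h.zero]; ring
  · exact hc x h1 hx.2

/-! ### `x`, `T x` of opposite signs -/

/-- hypotheses of the second case -/
def HM2 (f : ℝ → ℝ) (r : ℝ) : Prop := ∀ x, 0 < |x| → |x| < r → x * T f x < 0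

/-- punctured interval -/
def PD (r : ℝ) : Set ℝ := {x | 0 < |x| ∧ |x| < r}

lemma HM2.sgn_pos {r : ℝ} (hD : HM2 f r) {x : ℝ} (hx : 0 < x) (hr : x < r) :
    T f x < 0 ∧ f x < -x := by
  have h1 := hD x (abs_pos.mpr hx.ne') (by rw [abs_of_pos hx]; exact hr)
  have h3 : T f x < 0 := by
    by_contra hc
    rw [not_lt] at hc
    nlinarith
  exact ⟨h3, by unfold T at h3; linarith⟩

lemma HM2.sgn_neg {r : ℝ} (hD : HM2 f r) {x : ℝ} (hx : x < 0) (hr : -r < x) :
    0 < T f x ∧ -x < f x := by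
  have h1 := hD x (abs_pos.mpr hx.ne) (by rw [abs_of_neg hx]; linarith)
  have h3 : 0 < T f x := by nlinarith
  exact ⟨h3, by unfold T at h3; linarith⟩

lemma HM2.setup (h : Sol f) {r : ℝ} (hD : HM2 f r) : Setup f (T f) (PD r) where
  comm := h.comm
  ne0 x hx := abs_pos.mp hx.1
  add x hx := by
    have hT : T f x = x + f x := rfl
    obtain ⟨h0, hr⟩ := hx
    rcases lt_or_gt_of_ne (abs_pos.mp h0) with hx | hx
    · rw [abs_of_neg hx] at hr
      obtain ⟨a, b⟩ := hD.sgn_neg hx (by linarith)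
      rw [abs_of_neg hx, abs_of_pos a, abs_of_pos (by linarith), hT]; ring
    · rw [abs_of_pos hx] at hr
      obtain ⟨a, b⟩ := hD.sgn_pos hx hr
      rw [abs_of_pos hx, abs_of_neg a, abs_of_neg (by linarith), hT]; ring
  mem x hx hf := by
    have hT : T f x = x + f x := rfl
    obtain ⟨h0, hr⟩ := hx
    rcases lt_or_gt_of_ne (abs_pos.mp h0) with hx | hx
    · rw [abs_of_neg hx] at hr
      obtain ⟨a, b⟩ := hD.sgn_neg hx (by linarith)
      refine ⟨abs_pos.mpr a.ne', ?_⟩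
      rw [abs_of_pos a, hT]
      have := hf.2
      rw [abs_of_pos (by linarith)] at this
      linarith
    · rw [abs_of_pos hx] at hr
      obtain ⟨a, b⟩ := hD.sgn_pos hx hr
      refine ⟨abs_pos.mpr a.ne, ?_⟩
      rw [abs_of_neg a, hT]
      have := hf.2
      rw [abs_of_neg (by linarith)] at this
      linarith
  surj x hx := by
    obtain ⟨h0, hr⟩ := hx
    rcases lt_or_gt_of_ne (abs_pos.mp h0) with hx | hx
    · rw [abs_of_neg hx] at hr
      obtain ⟨a, b⟩ := hD.sgn_pos (x := -x) (by linarith) (by linarith)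
      obtain ⟨y, hy0, hyx, hy⟩ := ivt0 (fun t => - f t) h.cont.neg (by simp [h.zero])
        (w := -x) (z := -x) (by linarith) (by linarith) (by linarith)
      refine ⟨y, ⟨abs_pos.mpr hy0.ne', by rw [abs_of_pos hy0]; linarith⟩, by linarith⟩
    · rw [abs_of_pos hx] at hr
      obtain ⟨a, b⟩ := hD.sgn_neg (x := -x) (by linarith) (by linarith)
      obtain ⟨y, hy0, hyx, hy⟩ := ivt0 (fun t => f (-t)) (h.cont.comp continuous_neg)
        (by simp [h.zero]) (w := x) (z := x) (by linarith) (by linarith) (by linarith)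
      refine ⟨-y, ⟨by rw [abs_neg]; exact abs_pos.mpr hy0.ne',
        by rw [abs_neg, abs_of_pos hy0]; linarith⟩, hy⟩

lemma HM2.sq (h : Sol f) {r : ℝ} (hD : HM2 f r) {y : ℝ} (h0 : y ∈ PD r) (h1 : f y ∈ PD r)
    (h2 : f (f y) ∈ PD r) : |f y| ^ 2 ≤ |f (f y)| * |y| := by
  have hS := hD.setup h
  obtain ⟨xs, hxs, hx0⟩ := exists_orbit hS y h0
  have c1 := hxs.cons (by rw [hx0]; exact h1)
  have c2 := c1.cons (by
    show f (f (xs 0)) ∈ _
    rw [hx0]; exact h2)
  have := c2.sq_le hS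
  have this' : |f (xs 0)| ^ 2 ≤ |f (f (xs 0))| * |xs 0| := this
  rwa [hx0] at this'

lemma HM2.up_sgn (h : Sol f) {r : ℝ} (hD : HM2 f r) {xs : ℕ → ℝ} (hx : BOrbit f (PD r) xs)
    (i n : ℕ) : 0 < xs n * (up (T f))^[i] xs n := by
  have hS := hD.setup h
  induction i with
  | zero =>
    have := hS.ne0 _ (hx.mem n)
    show 0 < xs n * xs n
    exact mul_self_pos.mpr this
  | succ i ih =>
    have h1 := hx.iter hS i
    set ys := (up (T f))^[i] xs with hys
    have h2 : 0 < ys n * up (T f) ys n := by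
      show 0 < ys n * T f (ys (n + 1))
      have h3 := h1.mem (n + 1)
      have h4 := h1.map n
      rw [← h4]
      obtain ⟨h0, hr⟩ := h3
      rcases lt_or_gt_of_ne (abs_pos.mp h0) with hx | hx
      · rw [abs_of_neg hx] at hr
        obtain ⟨a, b⟩ := hD.sgn_neg hx (by linarith)
        exact mul_pos (by linarith) a
      · rw [abs_of_pos hx] at hr
        obtain ⟨a, b⟩ := hD.sgn_pos hx hr
        exact mul_pos_of_neg_of_neg (by linarith) a
    rw [Function.iterate_succ_apply', ← hys]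
    have h5 : 0 < ys n ^ 2 := by
      have := hS.ne0 _ (h1.mem n)
      positivity
    have h6 : 0 < (ys n ^ 2) * (xs n * up (T f) ys n) := by
      calc 0 < (xs n * ys n) * (ys n * up (T f) ys n) := mul_pos ih h2
        _ = _ := by ring
    exact (mul_pos_iff_of_pos_left h5).mp h6

lemma four_ineq {a0 a1 a2 a3 a4 : ℝ} (h0 : 0 < a0) (_ : 0 < a1) (h2 : 0 < a2) (_ : 0 < a3)
    (h4 : 0 < a4) (e1 : a1 ^ 2 ≤ a2 * a0) (e2 : a2 ^ 2 ≤ a3 * a1) (e3 : a3 ^ 2 ≤ a4 * a2) :
    a2 ^ 2 ≤ a0 * a4 := by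
  have k1 : (a2 ^ 2) ^ 2 ≤ (a3 * a1) ^ 2 := pow_le_pow_left₀ (by positivity) e2 2
  have k2 : (a3 * a1) ^ 2 ≤ (a4 * a2) * (a2 * a0) := by
    rw [mul_pow]
    exact mul_le_mul e3 e1 (by positivity) (by positivity)
  have k3 : a2 ^ 2 * a2 ^ 2 ≤ a2 ^ 2 * (a0 * a4) := by
    calc a2 ^ 2 * a2 ^ 2 = (a2 ^ 2) ^ 2 := by ring
      _ ≤ _ := k1.trans k2
      _ = _ := by ring
  exact le_of_mul_le_mul_left k3 (by positivity)

theorem Sol.caseM2 (h : Sol f) {r : ℝ} (hr : 0 < r) (hD : HM2 f r) : ∃ c, ∀ x, f x = c * x := by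
  have hS := hD.setup h
  -- a smaller interval
  obtain ⟨ρ', hρ', hfr⟩ : ∃ ρ > 0, ∀ x, |x| < ρ → |f x| < r ∧ |f (f x)| < r := by
    obtain ⟨δ, hδ, hd⟩ := Metric.continuous_iff.mp h.cont 0 r hr
    obtain ⟨δ', hδ', hd'⟩ := Metric.continuous_iff.mp (h.cont.comp h.cont) 0 r hr
    refine ⟨min δ δ', lt_min hδ hδ', fun x hx => ⟨?_, ?_⟩⟩
    · have := hd x (by simpa [Real.dist_eq] using hx.trans_le (min_le_left _ _))
      simpa [Real.dist_eq, h.zero] using this
    · have := hd' x (by simpa [Real.dist_eq] using hx.trans_le (min_le_right _ _))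
      simpa [Real.dist_eq, h.zero] using this
  set ρ := min r ρ' with hρdef
  have hρ : 0 < ρ := lt_min hr hρ'
  have hρr : ρ ≤ r := min_le_left _ _
  -- basic facts on `(0, ρ)`
  have hb : ∀ x, 0 < x → x < ρ → f x < -x ∧ -f x < f (f x) ∧ x ∈ PD r ∧ f x ∈ PD r ∧
      f (f x) ∈ PD r := by
    intro x hx hxρ
    have hxr := hxρ.trans_le hρr
    obtain ⟨a1, a2⟩ := hfr x (by rw [abs_of_pos hx]; exact hxρ.trans_le (min_le_right _ _))
    obtain ⟨b1, b2⟩ := hD.sgn_pos hx hxr
    have hfneg : f x < 0 := by linarith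
    rw [abs_of_neg hfneg] at a1
    obtain ⟨c1, c2⟩ := hD.sgn_neg hfneg (by linarith)
    refine ⟨b2, c2, ⟨abs_pos.mpr hx.ne', by rw [abs_of_pos hx]; exact hxr⟩,
      ⟨abs_pos.mpr hfneg.ne, by rw [abs_of_neg hfneg]; exact a1⟩,
      ⟨abs_pos.mpr (by linarith : 0 < f (f x)).ne', a2⟩⟩
  have hsq4 : ∀ z, 0 < z → z < ρ → f (f z) < ρ →
      |f z| ^ 2 ≤ f (f z) * z ∧ (f (f z)) ^ 2 ≤ |f (f (f z))| * |f z| ∧
      |f (f (f z))| ^ 2 ≤ f (f (f (f z))) * f (f z) := by
    intro z hz hzρ hFz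
    obtain ⟨a1, a2, a3, a4, a5⟩ := hb z hz hzρ
    have hF0 : 0 < f (f z) := by linarith
    obtain ⟨b1, b2, b3, b4, b5⟩ := hb (f (f z)) hF0 hFz
    have hFF0 : 0 < f (f (f (f z))) := by linarith
    have e1 := hD.sq h a3 a4 a5
    have e2 := hD.sq h a4 a5 b4
    have e3 := hD.sq h a5 b4 b5
    rw [abs_of_pos hz, abs_of_pos hF0] at e1
    rw [abs_of_pos hF0] at e2
    rw [abs_of_pos hFF0, abs_of_pos hF0] at e3
    exact ⟨e1, e2, e3⟩
  have key : ∀ y, 0 < y → y < ρ → ∀ w, 0 < w → w < ρ → f (f y) * w ≤ f (f w) * y := by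
    intro y hy hyρ w hw hwρ
    by_contra hcon
    rw [not_le] at hcon
    set B := f (f y) / y with hB
    have hBy : f (f y) = B * y := by rw [hB]; field_simp
    have hw1 : f (f w) < B * w := by
      have : f (f w) * y < (B * w) * y := by
        calc f (f w) * y < f (f y) * w := hcon
          _ = _ := by rw [hBy]; ring
      exact lt_of_mul_lt_mul_right this hy.le
    obtain ⟨δ, hδ, hd⟩ := expand (fun x => f (f x)) (h.cont.comp h.cont) (by simp [h.zero]) w hw
      (fun z hz hzw => by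
        obtain ⟨a1, a2, a3, a4, a5⟩ := hb z hz (hzw.trans_lt hwρ)
        show z < f (f z)
        linarith)
      (fun z hz hzw hFw => by
        have hzρ := hzw.trans_lt hwρ
        have hFρ : f (f z) < ρ := lt_of_le_of_lt hFw hwρ
        obtain ⟨e1, e2, e3⟩ := hsq4 z hz hzρ hFρ
        obtain ⟨a1, a2, a3, a4, a5⟩ := hb z hz hzρ
        have hF0 : 0 < f (f z) := by linarith
        obtain ⟨b1, b2, b3, b4, b5⟩ := hb (f (f z)) hF0 hFρ
        show (f (f z)) ^ 2 ≤ z * f (f (f (f z)))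
        exact four_ineq hz a4.1 hF0 b4.1 (by linarith) e1 e2 e3)
      B hw1
    obtain ⟨a1, a2, a3, a4, a5⟩ := hb y hy hyρ
    obtain ⟨xs, hxs, hx0⟩ := exists_orbit hS y a3
    have c1 := hxs.cons (by rw [hx0]; exact a4)
    have c2 := c1.cons (by
      show f (f (xs 0)) ∈ _
      rw [hx0]; exact a5)
    set x1 : ℕ → ℝ := fun n => Nat.casesOn n (f (xs 0)) xs with hx1
    set x2 : ℕ → ℝ := fun n => Nat.casesOn n (f (x1 0)) x1 with hx2
    obtain ⟨i, hi⟩ := c2.small hS δ hδ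
    have h1 := c2.ratio_iter hS i
    have h2 := c1.ratio_iter hS i
    have hsh : (up (T f))^[i] x1 1 = (up (T f))^[i] x2 2 := up_shift x2 i 1
    set z := (up (T f))^[i] x2 2 with hz
    have ho := c2.iter hS i
    have hfz : f z = (up (T f))^[i] x2 1 := ho.map 1
    have hffz : f (f z) = (up (T f))^[i] x2 0 := by rw [hfz]; exact ho.map 0
    have hsg := hD.up_sgn h c2 i 2
    rw [← hz] at hsg
    have hx22 : x2 2 = y := hx0
    have hx21 : x2 1 = f y := by show f (xs 0) = _; rw [hx0]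
    have hx11 : x1 1 = y := hx0
    rw [hx22] at hsg
    have hz0 : 0 < z := (mul_pos_iff_of_pos_left hy).mp hsg
    rw [hsh, hx11] at h2
    rw [← hfz, hx21] at h1
    rw [← hfz] at hi
    have hzm : z ∈ PD r := ho.mem 2
    have hfzm : f z ∈ PD r := by rw [hfz]; exact ho.mem 1
    have hffzm : f (f z) ∈ PD r := by rw [hffz]; exact ho.mem 0
    -- h1 : |T (f y)| * |f z| ≤ |f y| * |T (f z)|,  h2 : |T y| * |z| ≤ |y| * |T z|
    have ad1 := hS.add _ a3
    have ad2 := hS.add _ a4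
    have ad3 := hS.add _ hzm
    have ad4 := hS.add _ hfzm
    have hFy : 0 < f (f y) := by linarith
    have hzlt : z < r := by have := hzm.2; rwa [abs_of_pos hz0] at this
    have hfzneg : f z < 0 := by linarith [(hD.sgn_pos hz0 hzlt).2]
    have hFz : 0 < f (f z) := by
      have h3 := hfzm.2
      rw [abs_of_neg hfzneg] at h3
      linarith [(hD.sgn_neg hfzneg (by linarith)).2]
    have hzδ : z < δ := by
      rw [ad3, abs_of_pos hz0] at hi
      linarith [abs_nonneg (T f z)]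
    have h5 := hd z hz0 hzδ
    have k1 : |f (f y)| * |f z| ≤ |f y| * |f (f z)| := by rw [ad2, ad4]; nlinarith
    have k2 : |f y| * |z| ≤ |y| * |f z| := by rw [ad1, ad3]; nlinarith
    have k3 : |f z| * (|f (f y)| * |z|) ≤ |f z| * (|y| * |f (f z)|) := by
      calc |f z| * (|f (f y)| * |z|) = (|f (f y)| * |f z|) * |z| := by ring
        _ ≤ (|f y| * |f (f z)|) * |z| := mul_le_mul_of_nonneg_right k1 (abs_nonneg _)
        _ = (|f y| * |z|) * |f (f z)| := by ring
        _ ≤ (|y| * |f z|) * |f (f z)| := mul_le_mul_of_nonneg_right k2 (abs_nonneg _)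
        _ = _ := by ring
    have k4 := le_of_mul_le_mul_left k3 hfzm.1
    rw [abs_of_pos hFy, abs_of_pos hz0, abs_of_pos hy, abs_of_pos hFz, hBy] at k4
    have h5' : f (f z) < B * z := h5
    have h6 : y * f (f z) < y * (B * z) := mul_lt_mul_of_pos_left h5' hy
    linarith
  -- `f (f x) = L x` on `(0, ρ)`
  have hρ2 : 0 < ρ / 2 := by linarith
  have hρ2ρ : ρ / 2 < ρ := by linarith
  set L := f (f (ρ / 2)) / (ρ / 2) with hL
  have hLF : ∀ x, 0 < x → x < ρ → f (f x) = L * x := by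
    intro x hx hxρ
    have a := key x hx hxρ (ρ / 2) hρ2 hρ2ρ
    have b := key (ρ / 2) hρ2 hρ2ρ x hx hxρ
    rw [hL, div_mul_eq_mul_div, eq_div_iff hρ2.ne']
    linarith
  have hL1 : 1 < L := by
    rw [hL, one_lt_div hρ2]
    obtain ⟨a1, a2, _⟩ := hb _ hρ2 hρ2ρ
    linarith
  have hL0 : 0 < L := by linarith
  set s := Real.sqrt L with hs
  have hss : s ^ 2 = L := Real.sq_sqrt hL0.le
  have hs1 : 1 < s := by
    rw [hs, Real.lt_sqrt (by norm_num)]; linarith
  have hs0 : 0 < s := by linarith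
  have hfpos : ∀ y, 0 < y → y < ρ / L → f y = - s * y := by
    intro y hy hyL
    rw [lt_div_iff₀ hL0] at hyL
    have hyρ : y < ρ := by nlinarith
    have hFy := hLF y hy hyρ
    have hFρ : f (f y) < ρ := by rw [hFy]; linarith
    obtain ⟨e1, e2, e3⟩ := hsq4 y hy hyρ hFρ
    obtain ⟨a1, a2, a3, a4, a5⟩ := hb y hy hyρ
    have hF0 : 0 < f (f y) := by linarith
    have hFF := hLF (f (f y)) hF0 hFρ
    rw [hFF, hFy] at e3
    rw [hFy] at e1 e2
    have k1 : (L * y) ^ 2 * (L * y) ^ 2 ≤ |f y| ^ 2 * (L ^ 3 * y ^ 2) := by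
      calc (L * y) ^ 2 * (L * y) ^ 2 ≤ (|f (L * y)| * |f y|) * (|f (L * y)| * |f y|) :=
            mul_le_mul e2 e2 (by positivity) (by positivity)
        _ = |f y| ^ 2 * |f (L * y)| ^ 2 := by ring
        _ ≤ |f y| ^ 2 * (L * (L * y) * (L * y)) :=
            mul_le_mul_of_nonneg_left e3 (by positivity)
        _ = _ := by ring
    have k2 : (L ^ 3 * y ^ 2) * (L * y ^ 2) ≤ (L ^ 3 * y ^ 2) * |f y| ^ 2 := by
      calc (L ^ 3 * y ^ 2) * (L * y ^ 2) = (L * y) ^ 2 * (L * y) ^ 2 := by ring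
        _ ≤ _ := k1
        _ = _ := by ring
    have k3 : L * y ^ 2 ≤ |f y| ^ 2 := le_of_mul_le_mul_left k2 (by positivity)
    have k4 : |f y| ^ 2 = (s * y) ^ 2 := by
      rw [mul_pow, hss]
      apply le_antisymm _ k3
      calc |f y| ^ 2 ≤ L * y * y := e1
        _ = _ := by ring
    have k5 : |f y| = s * y := (pow_left_inj₀ (abs_nonneg _) (by positivity) two_ne_zero).mp k4
    rw [abs_of_neg (by linarith)] at k5
    linarith
  have hfneg : ∀ z, z < 0 → -(ρ / L) < z → f z = - s * z := by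
    intro z hz hzL
    have hy0 : 0 < -z / s := div_pos (by linarith) hs0
    have hy1 : -z / s < ρ / L := by
      have : -z / s < -z := div_lt_self (by linarith) hs1
      linarith
    have hyρ : -z / s < ρ := hy1.trans (div_lt_self hρ hL1)
    have e1 := hfpos _ hy0 hy1
    have e2 := hLF _ hy0 hyρ
    have e3 : -s * (-z / s) = z := by field_simp
    rw [e1, e3] at e2
    rw [e2, ← hss]
    field_simp
  refine ⟨-s, h.ext_neg1 (by linarith) (ρ := ρ / L / 2) (by positivity) ?_⟩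
  intro x hx
  rw [abs_le] at hx
  have hρL : 0 < ρ / L := by positivity
  rcases lt_trichotomy x 0 with h1 | h1 | h1
  · exact hfneg x h1 (by linarith)
  · rw [h1, h.zero]; ring
  · exact hfpos x h1 (by linarith)

end Run7.h6.FE
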