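import Pool.Agent.Run7.h6.FE.Local

/-!
# Backward orbits and the log-convexity inequalities
-/

namespace Run7.h6.FE

/-- Two commuting maps with `|Φ x| = |x| + |Ψ x|` on a set `D`. -/
structure Setup (Φ Ψ : ℝ → ℝ) (D : Set ℝ) : Prop where
  comm : ∀ x, Φ (Ψ x) = Ψ (Φ x)
  ne0 : ∀ x ∈ D, x ≠ 0
  add : ∀ x ∈ D, |Φ x| = |x| + |Ψ x|
  mem : ∀ x ∈ D, Φ x ∈ D → Ψ x ∈ D
  surj : ∀ x ∈ D, ∃ y ∈ D, Φ y = x

/-- Backward orbits of `Φ` inside `D`. -/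
structure BOrbit (Φ : ℝ → ℝ) (D : Set ℝ) (xs : ℕ → ℝ) : Prop where
  mem : ∀ n, xs n ∈ D
  map : ∀ n, Φ (xs (n + 1)) = xs n

/-- The map `Ψ ∘ Φ⁻¹` on backward orbits. -/
def up (Ψ : ℝ → ℝ) (xs : ℕ → ℝ) : ℕ → ℝ := fun n => Ψ (xs (n + 1))

variable {Φ Ψ : ℝ → ℝ} {D : Set ℝ}

lemma BOrbit.up (h : Setup Φ Ψ D) {xs : ℕ → ℝ} (hx : BOrbit Φ D xs) :
    BOrbit Φ D (up Ψ xs) where
  mem n := h.mem _ (hx.mem _) (by rw [hx.map]; exact hx.mem n)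
  map n := by
    show Φ (Ψ (xs (n + 1 + 1))) = Ψ (xs (n + 1))
    rw [h.comm, hx.map]

lemma BOrbit.iter (h : Setup Φ Ψ D) {xs : ℕ → ℝ} (hx : BOrbit Φ D xs) (i : ℕ) :
    BOrbit Φ D ((FE.up Ψ)^[i] xs) := by
  induction i with
  | zero => exact hx
  | succ i ih => rw [Function.iterate_succ_apply']; exact ih.up h

lemma BOrbit.shift {xs : ℕ → ℝ} (hx : BOrbit Φ D xs) : BOrbit Φ D (fun n => xs (n + 1)) where
  mem _ := hx.mem _
  map _ := hx.map _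

lemma BOrbit.cons {xs : ℕ → ℝ} (hx : BOrbit Φ D xs) (h : Φ (xs 0) ∈ D) :
    BOrbit Φ D (fun n => Nat.casesOn n (Φ (xs 0)) xs) where
  mem n := by
    cases n with
    | zero => exact h
    | succ n => exact hx.mem n
  map n := by
    cases n with
    | zero => rfl
    | succ n => exact hx.map n

lemma exists_orbit (h : Setup Φ Ψ D) (x : ℝ) (hx : x ∈ D) :
    ∃ xs, BOrbit Φ D xs ∧ xs 0 = x := by
  choose g hg1 hg2 using h.surj
  let G : {x // x ∈ D} → {x // x ∈ D} := fun y => ⟨g y.1 y.2, hg1 y.1 y.2⟩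
  refine ⟨fun n => (G^[n] ⟨x, hx⟩).1, ⟨fun n => (G^[n] ⟨x, hx⟩).2, fun n => ?_⟩, rfl⟩
  show Φ (G^[n + 1] ⟨x, hx⟩).1 = _
  rw [Function.iterate_succ_apply']
  exact hg2 _ _

lemma BOrbit.pascal (h : Setup Φ Ψ D) {xs : ℕ → ℝ} (hx : BOrbit Φ D xs) (i j : ℕ) :
    |(FE.up Ψ)^[i] xs j| = |(FE.up Ψ)^[i] xs (j + 1)| + |(FE.up Ψ)^[i + 1] xs j| := by
  have h1 := hx.iter h i
  rw [Function.iterate_succ_apply' (FE.up Ψ) i]
  show _ = _ + |Ψ ((FE.up Ψ)^[i] xs (j + 1))|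
  rw [← h.add _ (h1.mem _), h1.map]

/-- Log-convexity along the orbit. -/
lemma BOrbit.sq_le (h : Setup Φ Ψ D) {xs : ℕ → ℝ} (hx : BOrbit Φ D xs) :
    |xs 1| ^ 2 ≤ |xs 0| * |xs 2| :=
  logconv (fun i j => |(FE.up Ψ)^[i] xs j|) (fun _ _ => abs_nonneg _) (hx.pascal h)

lemma BOrbit.ratio (h : Setup Φ Ψ D) {xs : ℕ → ℝ} (hx : BOrbit Φ D xs) :
    |Ψ (xs 1)| * |FE.up Ψ xs 1| ≤ |xs 1| * |Ψ (FE.up Ψ xs 1)| := by
  have h1 := logconv' (fun i j => |(FE.up Ψ)^[i] xs j|) (fun _ _ => abs_nonneg _) (hx.pascal h)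
  have h1' : |Ψ (xs 1)| ^ 2 ≤ |xs 0| * |Ψ (FE.up Ψ xs 1)| := h1
  have e0 : |xs 0| = |xs 1| + |Ψ (xs 1)| := by rw [← h.add _ (hx.mem 1), hx.map]
  have hu := hx.up h
  have e1 : |Ψ (xs 1)| = |FE.up Ψ xs 1| + |Ψ (FE.up Ψ xs 1)| := by
    rw [← h.add _ (hu.mem 1), hu.map]; rfl
  rw [e0] at h1'
  have p0 : 0 ≤ |Ψ (xs 1)| := abs_nonneg _
  nlinarith

lemma BOrbit.ratio_iter (h : Setup Φ Ψ D) {xs : ℕ → ℝ} (hx : BOrbit Φ D xs) (i : ℕ) :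
    |Ψ (xs 1)| * |(FE.up Ψ)^[i] xs 1| ≤ |xs 1| * |Ψ ((FE.up Ψ)^[i] xs 1)| := by
  induction i with
  | zero => simp only [Function.iterate_zero, id_eq]; rw [mul_comm]
  | succ i ih =>
    have h1 := (hx.iter h i).ratio h
    rw [← Function.iterate_succ_apply' (FE.up Ψ) i] at h1
    have hpos : 0 < |(FE.up Ψ)^[i] xs 1| := abs_pos.mpr (h.ne0 _ ((hx.iter h i).mem 1))
    set a := |Ψ (xs 1)|
    set b := |xs 1|
    set c := |(FE.up Ψ)^[i] xs 1|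
    set d := |Ψ ((FE.up Ψ)^[i] xs 1)|
    set e := |(FE.up Ψ)^[i + 1] xs 1|
    set f := |Ψ ((FE.up Ψ)^[i + 1] xs 1)|
    have hb : 0 ≤ b := abs_nonneg _
    have he : 0 ≤ e := abs_nonneg _
    -- a c ≤ b d,  d e ≤ c f,  want a e ≤ b f
    have : c * (a * e) ≤ c * (b * f) := by
      calc c * (a * e) = (a * c) * e := by ring
        _ ≤ (b * d) * e := mul_le_mul_of_nonneg_right ih he
        _ = b * (d * e) := by ring
        _ ≤ b * (c * f) := mul_le_mul_of_nonneg_left h1 hb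
        _ = _ := by ring
    exact le_of_mul_le_mul_left this hpos

lemma up_shift (xs : ℕ → ℝ) (i n : ℕ) :
    (FE.up Ψ)^[i] (fun n => xs (n + 1)) n = (FE.up Ψ)^[i] xs (n + 1) := by
  induction i generalizing n with
  | zero => rfl
  | succ i ih =>
    rw [Function.iterate_succ_apply', Function.iterate_succ_apply']
    show Ψ _ = Ψ _
    rw [ih]

lemma BOrbit.small (h : Setup Φ Ψ D) {xs : ℕ → ℝ} (hx : BOrbit Φ D xs) (δ : ℝ) (hδ : 0 < δ) :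
    ∃ i, |(FE.up Ψ)^[i] xs 1| < δ := by
  by_contra hcon
  push Not at hcon
  have key : ∀ n : ℕ, |(FE.up Ψ)^[n] xs 0| ≤ |xs 0| - n * δ := by
    intro n
    induction n with
    | zero => simp
    | succ n ih =>
      have h1 := hx.pascal h n 0
      have h2 := hcon n
      push_cast
      simp only [zero_add] at h1
      linarith
  obtain ⟨n, hn⟩ := exists_nat_gt (|xs 0| / δ)
  rw [div_lt_iff₀ hδ] at hn
  have := key n
  have h3 := abs_nonneg ((FE.up Ψ)^[n] xs 0)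
  linarith

end Run7.h6.FE
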